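import Mathlib

/-!
# W2.Ineq: the slot inequalities (pure real arithmetic)

`0 < b ≤ a`, `1 < δ`, `D = c - a - b`, `a (δ-1) < c - a`, `b (δ-1) < D`, `x₀ = δ/D`.

* `ineq_a`: `D ≥ 4`, or `D ≥ 3` and `b ≤ 6`: `x₀ < 1/2 + 2δ/c` and `x₀ < 1 + δ/c`.
  First: `x₀ - 2δ/c = δ (c - 2D)/(D c)`; if `c ≤ 2D` it is `≤ 0`; otherwise, by `δ a < c`,
  it is `< (c - 2D)/(D a) = (a + b - D)/(D a) ≤ 1/2` because `b - D ≤ a (D/2 - 1)`
  (`D ≥ 4`: `b - D ≤ b ≤ a`; `D ≥ 3`, `b ≤ 6`: `b - 3 ≤ b/2 ≤ a/2`).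
  Second: `x₀ - δ/c = δ (a+b)/(D c) ≤ 2 a δ/(D c) < 2/D < 1`.
* `ineq_b`: `x₀ + 1/m < 1/2 + 2δ/(c-a)` and `x₀ + 1/m < 1 + δ/(c-a)` for `m = 4`, `D ≥ 4` and for
  `m = 3`, `D ≥ 3`, `b ≤ 6`. `x₀ - 2δ/(c-a) = δ (b - D)/(D (D+b))`; if `b ≤ D` it is `≤ 0`; otherwise, by
  `δ b < D + b`, it is `< (b - D)/(D b) = 1/D - 1/b` (`< 1/4` resp. `≤ 1/6`).
  `x₀ - δ/(c-a) = δ b/(D (D+b)) < 1/D`.
* `ineq_p`: the plane `D = 2`, `b ≤ 2`, `δ ≤ 2` (slots `m = 2`):
  `δ/2 ≤ 1/2 + 2δ/c` iff `δ (c - 4) ≤ c`; `c = a + b + 2`, `δ a < c - ...`: `δ (a + b - 2) ≤ δ a ≤ c`;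
  `δ/2 ≤ 1 + δ/c` as `δ ≤ 2`; `δ/2 + 1/2 ≤ 1/2 + 2δ/(b+2)` iff `b ≤ 2`;
  `δ/2 + 1/2 ≤ 1 + δ/(b+2)` iff `δ b ≤ b + 2`.
-/

set_option autoImplicit false

namespace Pool.Agent.Lib.MP_8382de_an.W2

/-- `δ/D - 2δ/e ≤ t` if `δ f ≤ e`, `e - 2 D ≤ t D f` -/
private theorem ineq_core {δ D e f t : ℝ} (hδ : 0 < δ) (hD : 0 < D) (he : 0 < e) (hf : 0 < f)
    (ht : 0 < t) (h1 : δ * f < e) (h2 : e - 2 * D ≤ t * D * f) : δ / D < t + 2 * (δ / e) := by
  have h3 : δ / D - 2 * (δ / e) = δ * (e - 2 * D) / (D * e) := by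
    field_simp
  have h4 : δ * (e - 2 * D) / (D * e) < t := by
    rw [div_lt_iff₀ (by positivity)]
    rcases le_or_gt (e - 2 * D) 0 with h | h
    · have : δ * (e - 2 * D) ≤ 0 := mul_nonpos_of_nonneg_of_nonpos hδ.le h
      have : 0 < t * (D * e) := by positivity
      linarith
    · have h5 : δ * (e - 2 * D) ≤ δ * (t * D * f) := mul_le_mul_of_nonneg_left h2 hδ.le
      have h6 : δ * (t * D * f) = (t * D) * (δ * f) := by ring
      have h7 : (t * D) * (δ * f) < (t * D) * e := mul_lt_mul_of_pos_left h1 (by positivity)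
      have h8 : (t * D) * e = t * (D * e) := by ring
      linarith
  linarith

/-- `δ/D - δ/e < t` if `δ f < e`, `e - D ≤ t D f` -/
private theorem ineq_core2 {δ D e f t : ℝ} (hδ : 0 < δ) (hD : 0 < D) (he : 0 < e) 
    (ht : 0 < t) (h1 : δ * f < e) (h2 : e - D ≤ t * D * f) : δ / D < t + δ / e := by
  have h3 : δ / D - δ / e = δ * (e - D) / (D * e) := by
    field_simp
  have h4 : δ * (e - D) / (D * e) < t := by
    rw [div_lt_iff₀ (by positivity)]
    have h5 : δ * (e - D) ≤ δ * (t * D * f) := mul_le_mul_of_nonneg_left h2 hδ.le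
    have h6 : δ * (t * D * f) = (t * D) * (δ * f) := by ring
    have h7 : (t * D) * (δ * f) < (t * D) * e := mul_lt_mul_of_pos_left h1 (by positivity)
    have h8 : (t * D) * e = t * (D * e) := by ring
    linarith
  linarith

theorem ineq_a {a b c δ : ℝ} (hb : 0 < b) (hab : b ≤ a) (hδ : 1 < δ)
    (hD : 4 ≤ c - a - b ∨ (3 ≤ c - a - b ∧ b ≤ 6)) (H1 : a * (δ - 1) < c - a)
    (_H2 : b * (δ - 1) < c - a - b) :
    δ / (c - a - b) < 1 / 2 + 2 * (δ / c) ∧ δ / (c - a - b) < 1 + δ / c := by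
  have ha : 0 < a := lt_of_lt_of_le hb hab
  have hD3 : 3 ≤ c - a - b := by rcases hD with h | h <;> linarith [h]
  set D := c - a - b with hDd
  have hc : c = a + b + D := by rw [hDd]; ring
  have hDpos : 0 < D := by linarith
  have h1 : δ * a < c := by linarith
  constructor
  · refine ineq_core (by linarith) hDpos (by linarith) ha (by norm_num) h1 ?_
    rw [hc]
    rcases hD with h | ⟨h, h6⟩
    · nlinarith
    · nlinarith
  · refine ineq_core2 (by linarith) hDpos (by linarith) (by norm_num) h1 ?_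
    rw [hc]
    nlinarith

theorem ineq_b4 {a b c δ : ℝ} (hb : 0 < b) (_hab : b ≤ a) (hδ : 1 < δ)
    (hD : 4 ≤ c - a - b) (H2 : b * (δ - 1) < c - a - b) :
    δ / (c - a - b) + 1 / 4 < 1 / 2 + 2 * (δ / (c - a)) ∧
      δ / (c - a - b) + 1 / 4 < 1 + δ / (c - a) := by
  set D := c - a - b with hDd
  have hc : c - a = b + D := by rw [hDd]; ring
  have hDpos : 0 < D := by linarith
  have h1 : δ * b < b + D := by linarith
  rw [hc]
  constructor
  · have h2 : δ / D < 1 / 4 + 2 * (δ / (b + D)) := by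
      refine ineq_core (by linarith) hDpos (by linarith) hb (by norm_num) h1 ?_
      nlinarith
    linarith
  · have h2 : δ / D < 3 / 4 + δ / (b + D) := by
      refine ineq_core2 (by linarith) hDpos (by linarith) (by norm_num) h1 ?_
      nlinarith
    linarith

theorem ineq_b3 {a b c δ : ℝ} (hb : 0 < b) (_hab : b ≤ a) (hδ : 1 < δ)
    (hD : 3 ≤ c - a - b) (hb6 : b ≤ 6) (H2 : b * (δ - 1) < c - a - b) :
    δ / (c - a - b) + 1 / 3 < 1 / 2 + 2 * (δ / (c - a)) ∧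
      δ / (c - a - b) + 1 / 3 < 1 + δ / (c - a) := by
  set D := c - a - b with hDd
  have hc : c - a = b + D := by rw [hDd]; ring
  have hDpos : 0 < D := by linarith
  have h1 : δ * b < b + D := by linarith
  rw [hc]
  constructor
  · have h2 : δ / D < 1 / 6 + 2 * (δ / (b + D)) := by
      refine ineq_core (by linarith) hDpos (by linarith) hb (by norm_num) h1 ?_
      nlinarith
    linarith
  · have h2 : δ / D < 2 / 3 + δ / (b + D) := by
      refine ineq_core2 (by linarith) hDpos (by linarith) (by norm_num) h1 ?_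
      nlinarith
    linarith

theorem ineq_p {a b c δ : ℝ} (hb : 0 < b) (hab : b ≤ a) (hδ : 1 < δ)
    (hD : c - a - b = 2) (hb2 : b ≤ 2) (hδ2 : δ ≤ 2) (H1 : a * (δ - 1) < c - a) :
    δ / 2 ≤ 1 / 2 + 2 * (δ / c) ∧ δ / 2 ≤ 1 + δ / c ∧
      δ / 2 + 1 / 2 ≤ 1 / 2 + 2 * (δ / (c - a)) ∧ δ / 2 + 1 / 2 ≤ 1 + δ / (c - a) := by
  have ha : 0 < a := lt_of_lt_of_le hb hab
  have hc : c = a + b + 2 := by linarith
  have hca : c - a = b + 2 := by linarith
  have hcpos : 0 < c := by linarith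
  have h0 : 0 < δ / c := by positivity
  refine ⟨?_, by linarith, ?_, ?_⟩
  · have h1 : δ / 2 < 1 / 2 + 2 * (δ / c) := by
      refine ineq_core (f := a) (by linarith) (by norm_num) hcpos ha (by norm_num)
        (by linarith) ?_
      rw [hc]
      linarith
    exact h1.le
  · rw [hca]
    have h1 : 1 / 4 ≤ 1 / (b + 2) := one_div_le_one_div_of_le (by linarith) (by linarith)
    have h2 : δ / (b + 2) = δ * (1 / (b + 2)) := by ring
    rw [h2]
    nlinarith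
  · rw [hca]
    have h3 : 0 < b + 2 := by linarith
    have h4 : δ / 2 - δ / (b + 2) = δ * b / (2 * (b + 2)) := by
      field_simp
      ring
    have h5 : δ * b / (2 * (b + 2)) ≤ 1 / 2 := by
      rw [div_le_iff₀ (by positivity)]
      nlinarith
    linarith

end Pool.Agent.Lib.MP_8382de_an.W2
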