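import Pool.Agent.Lib.MP_8382de_an.W2.Asm
import Pool.Agent.Lib.MP_8382de_an.W2.Ineq

/-!
# W2.Fin2: the second theorem

`main2`: `0 < b ≤ a`, `d > 0`, `D = c - a - b`, `(d+1) a ≤ c`, `d b ≤ D`, and `D ≥ 4` or
(`D ≥ 3` and `b ≤ 6`); `main2p`: the plane `D = 2`, `b ≤ 2`, `d ≤ 1`, `(d+1) a ≤ c`.
First for strict inequalities (`strict2`, `strict2p`), then limit `d_n ↑ d` (`T_lim_ev`).

`strict2`: `D > 4`: `asm_gt` with `m = 4`; `D = 4`: `asm_eq` with `m = 4`; `3 < D < 4`: `asm_gt` with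
`m = 3`; `D = 3`: `asm_eq` with `m = 3`. `x` slightly larger than `δ/D` (`exists_between`, all slot
conditions are strict at `x = δ/D`).
-/

set_option autoImplicit false

namespace Pool.Agent.Lib.MP_8382de_an.W2

open ALG Filter Topology

private theorem fin2_exists {x0 r1 r2 r3 r4 r5 r6 r7 : ℝ} (h1 : x0 < r1) (h2 : x0 < r2)
    (h3 : x0 < r3) (h4 : x0 < r4) (h5 : x0 < r5) (h6 : x0 < r6) (h7 : x0 < r7) :
    ∃ x, x0 < x ∧ x < r1 ∧ x < r2 ∧ x < r3 ∧ x < r4 ∧ x < r5 ∧ x < r6 ∧ x < r7 := by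
  obtain ⟨x, hx0, hx⟩ := exists_between
    (lt_min h1 (lt_min h2 (lt_min h3 (lt_min h4 (lt_min h5 (lt_min h6 h7))))))
  rw [lt_min_iff, lt_min_iff, lt_min_iff, lt_min_iff, lt_min_iff, lt_min_iff] at hx
  exact ⟨x, hx0, hx.1, hx.2.1, hx.2.2.1, hx.2.2.2.1, hx.2.2.2.2.1, hx.2.2.2.2.2.1,
    hx.2.2.2.2.2.2⟩

theorem strict2 {a b c δ : ℝ} (hb : 0 < b) (hab : b ≤ a) (hδ : 1 < δ)
    (hD : 4 ≤ c - a - b ∨ (3 ≤ c - a - b ∧ b ≤ 6)) (H1 : a * (δ - 1) < c - a)
    (H2 : b * (δ - 1) < c - a - b) :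
    T (fun k => Real.Gamma (a * (k : ℝ) + 1) * Real.Gamma (b * (k : ℝ) + 1) /
      Real.Gamma (c * (k : ℝ) + δ) / (k.factorial : ℝ)) := by
  have ha : 0 < a := lt_of_lt_of_le hb hab
  have hDpos : 0 < c - a - b := by rcases hD with h | h <;> linarith [h]
  have hx0 : 0 < δ / (c - a - b) := div_pos (by linarith) hDpos
  obtain ⟨A1, A2⟩ := ineq_a hb hab hδ hD H1 H2
  rcases le_or_gt 4 (c - a - b) with h4 | h4
  · obtain ⟨B1, B2⟩ := ineq_b4 hb hab hδ h4 H2
    rcases eq_or_lt_of_le h4 with h | h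
    · refine asm_eq (m := 4) ha hb hδ (by norm_num) (by rw [← h]; norm_num) H1 H2 ?_ ?_ ?_ ?_
      · rw [← h] at A1; push_cast; exact A1.le
      · rw [← h] at A2; push_cast; exact A2.le
      · rw [← h] at B1; push_cast; exact B1.le
      · rw [← h] at B2; push_cast; exact B2.le
    · obtain ⟨x, hx, q1, q2, q3, q4, q5, q6, q7⟩ := fin2_exists
        (x0 := δ / (c - a - b)) (r1 := 1 / 2 + 2 * (δ / c)) (r2 := 1 + δ / c)
        (r3 := 1 / 2 + 2 * (δ / (c - a)) - 1 / 4) (r4 := 1 + δ / (c - a) - 1 / 4)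
        (r5 := 2 * (δ / (c - a - b))) (r6 := 1 + δ / (c - a - b) - 1 / 2)
        (r7 := δ / (c - a - b) + 1 / 4) A1 A2 (by linarith) (by linarith) (by linarith)
        (by linarith) (by linarith)
      refine asm_gt (m := 4) (x := x) ha hb hδ (by norm_num) (by push_cast; exact h) H1 H2 hx
        ?_ q1.le q2.le ?_ ?_ ?_ ?_
      · push_cast; linarith
      · push_cast; linarith
      · push_cast; linarith
      · push_cast; linarith
      · push_cast; linarith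
  · have h3 : 3 ≤ c - a - b ∧ b ≤ 6 := by
      rcases hD with h | h
      · exact absurd h (not_le.mpr h4)
      · exact h
    obtain ⟨h3, hb6⟩ := h3
    obtain ⟨B1, B2⟩ := ineq_b3 hb hab hδ h3 hb6 H2
    have hx6 : 1 / 4 < δ / (c - a - b) := by
      rw [lt_div_iff₀ hDpos]
      linarith
    rcases eq_or_lt_of_le h3 with h | h
    · refine asm_eq (m := 3) ha hb hδ (by norm_num) (by rw [← h]; norm_num) H1 H2 ?_ ?_ ?_ ?_
      · rw [← h] at A1; push_cast; exact A1.le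
      · rw [← h] at A2; push_cast; exact A2.le
      · rw [← h] at B1; push_cast; exact B1.le
      · rw [← h] at B2; push_cast; exact B2.le
    · obtain ⟨x, hx, q1, q2, q3, q4, q5, q6, q7⟩ := fin2_exists
        (x0 := δ / (c - a - b)) (r1 := 1 / 2 + 2 * (δ / c)) (r2 := 1 + δ / c)
        (r3 := 1 / 2 + 2 * (δ / (c - a)) - 1 / 3) (r4 := 1 + δ / (c - a) - 1 / 3)
        (r5 := 1 / 2 + 2 * (δ / (c - a - b)) - 2 / 3) (r6 := 1 + δ / (c - a - b) - 2 / 3)
        (r7 := δ / (c - a - b) + 1 / 3) A1 A2 (by linarith) (by linarith) (by linarith)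
        (by linarith) (by linarith)
      refine asm_gt (m := 3) (x := x) ha hb hδ (by norm_num) (by push_cast; exact h) H1 H2 hx
        ?_ q1.le q2.le ?_ ?_ ?_ ?_
      · push_cast; linarith
      · push_cast; linarith
      · push_cast; linarith
      · push_cast; linarith
      · push_cast; linarith

theorem strict2p {a b c δ : ℝ} (hb : 0 < b) (hab : b ≤ a) (hδ : 1 < δ)
    (hD : c - a - b = 2) (hb2 : b ≤ 2) (hδ2 : δ < 2) (H1 : a * (δ - 1) < c - a) :
    T (fun k => Real.Gamma (a * (k : ℝ) + 1) * Real.Gamma (b * (k : ℝ) + 1) /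
      Real.Gamma (c * (k : ℝ) + δ) / (k.factorial : ℝ)) := by
  have ha : 0 < a := lt_of_lt_of_le hb hab
  obtain ⟨A1, A2, B1, B2⟩ := ineq_p hb hab hδ hD hb2 hδ2.le H1
  refine asm_eq (m := 2) ha hb hδ (by norm_num) (by rw [hD]; norm_num) H1 ?_ ?_ ?_ ?_ ?_
  · rw [hD]
    nlinarith
  · push_cast; exact A1
  · push_cast; exact A2
  · push_cast; exact B1
  · push_cast; exact B2

theorem T_lim_d {a b c δ : ℝ} (_ha : 0 < a) (_hb : 0 < b) (hc : 0 < c) (hδ : 1 < δ)
    (h : ∀ δ' : ℝ, 1 < δ' → δ' < δ →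
      T (fun k => Real.Gamma (a * (k : ℝ) + 1) * Real.Gamma (b * (k : ℝ) + 1) /
        Real.Gamma (c * (k : ℝ) + δ') / (k.factorial : ℝ))) :
    T (fun k => Real.Gamma (a * (k : ℝ) + 1) * Real.Gamma (b * (k : ℝ) + 1) /
      Real.Gamma (c * (k : ℝ) + δ) / (k.factorial : ℝ)) := by
  have hlim : Tendsto (fun n : ℕ => δ - 1 / ((n : ℝ) + 1)) atTop (𝓝 δ) := by
    have h1 := (tendsto_one_div_add_atTop_nhds_zero_nat (𝕜 := ℝ)).const_sub δ
    rw [sub_zero] at h1
    exact h1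
  refine T_lim_ev (φ := fun n k => Real.Gamma (a * (k : ℝ) + 1) * Real.Gamma (b * (k : ℝ) + 1) /
        Real.Gamma (c * (k : ℝ) + (δ - 1 / ((n : ℝ) + 1))) / (k.factorial : ℝ)) ?_ ?_
  · have h2 : ∀ᶠ n : ℕ in atTop, 1 < δ - 1 / ((n : ℝ) + 1) := hlim.eventually (lt_mem_nhds hδ)
    filter_upwards [h2] with n hn
    refine h _ hn ?_
    have : (0 : ℝ) < 1 / ((n : ℝ) + 1) := by positivity
    linarith
  · intro k
    have hpos : 0 < c * (k : ℝ) + δ := by positivity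
    have hcont : ContinuousAt Real.Gamma (c * (k : ℝ) + δ) :=
      (Real.differentiableAt_Gamma (fun m => by
        have : (0 : ℝ) ≤ (m : ℝ) := Nat.cast_nonneg m
        linarith)).continuousAt
    have h3 : Tendsto (fun n : ℕ => Real.Gamma (c * (k : ℝ) + (δ - 1 / ((n : ℝ) + 1)))) atTop
        (𝓝 (Real.Gamma (c * (k : ℝ) + δ))) := hcont.tendsto.comp (hlim.const_add _)
    exact (Tendsto.div tendsto_const_nhds h3 (Real.Gamma_pos_of_pos hpos).ne').div_const _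

private theorem fin2_main {a b c d : ℝ} (hb : 0 < b) (hab : b ≤ a) (hd : 0 < d)
    (hD : 4 ≤ c - a - b ∨ (3 ≤ c - a - b ∧ b ≤ 6)) (H1 : d * a ≤ c - a)
    (H2 : d * b ≤ c - a - b) {x : ℂ} (hx : Phi a b c d x = 0) : x.im = 0 ∧ x.re < 0 := by
  have ha : 0 < a := lt_of_lt_of_le hb hab
  have hDpos : 0 < c - a - b := by rcases hD with h | h <;> linarith [h]
  refine good_of_T ha hb hd ?_ hx
  have hT : T (fun k => Real.Gamma (a * (k : ℝ) + 1) * Real.Gamma (b * (k : ℝ) + 1) /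
      Real.Gamma (c * (k : ℝ) + (d + 1)) / (k.factorial : ℝ)) := by
    refine T_lim_d ha hb (by linarith) (by linarith) fun δ' h1 h2 => ?_
    refine strict2 hb hab h1 hD ?_ ?_
    · nlinarith
    · nlinarith
  refine T_congr hT fun k => ?_
  rw [add_assoc]

/-- Theorem 2 -/
theorem main2 {a b c d : ℝ} (ha : 0 < a) (hb : 0 < b) (hd : 0 < d)
    (hD : 4 ≤ c - a - b ∨ (3 ≤ c - a - b ∧ min a b ≤ 6)) (H1 : d * max a b ≤ c - max a b)
    (H2 : d * min a b ≤ c - a - b) {x : ℂ} (hx : Phi a b c d x = 0) : x.im = 0 ∧ x.re < 0 := by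
  rcases le_total b a with hab | hab
  · rw [min_eq_right hab] at hD H2
    rw [max_eq_left hab] at H1
    exact fin2_main hb hab hd hD H1 H2 hx
  · rw [min_eq_left hab] at hD H2
    rw [max_eq_right hab] at H1
    rw [Phi_symm] at hx
    have e : c - a - b = c - b - a := by ring
    rw [e] at hD H2
    exact fin2_main ha hab hd hD H1 H2 hx

private theorem fin2_plane {a b c d : ℝ} (hb : 0 < b) (hab : b ≤ a) (hd : 0 < d) (hd1 : d ≤ 1)
    (hD : c - a - b = 2) (hm : b ≤ 2) (H1 : d * a ≤ c - a)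
    {x : ℂ} (hx : Phi a b c d x = 0) : x.im = 0 ∧ x.re < 0 := by
  have ha : 0 < a := lt_of_lt_of_le hb hab
  refine good_of_T ha hb hd ?_ hx
  have hT : T (fun k => Real.Gamma (a * (k : ℝ) + 1) * Real.Gamma (b * (k : ℝ) + 1) /
      Real.Gamma (c * (k : ℝ) + (d + 1)) / (k.factorial : ℝ)) := by
    refine T_lim_d ha hb (by linarith) (by linarith) fun δ' h1 h2 => ?_
    refine strict2p hb hab h1 hD hm (by linarith) ?_
    nlinarith
  refine T_congr hT fun k => ?_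
  rw [add_assoc]

/-- the plane `c = a + b + 2` -/
theorem main2p {a b c d : ℝ} (ha : 0 < a) (hb : 0 < b) (hd : 0 < d) (hd1 : d ≤ 1)
    (hD : c = a + b + 2) (hm : min a b ≤ 2) (H1 : d * max a b ≤ c - max a b)
    {x : ℂ} (hx : Phi a b c d x = 0) : x.im = 0 ∧ x.re < 0 := by
  rcases le_total b a with hab | hab
  · rw [min_eq_right hab] at hm
    rw [max_eq_left hab] at H1
    exact fin2_plane hb hab hd hd1 (by linarith) hm H1 hx
  · rw [min_eq_left hab] at hm
    rw [max_eq_right hab] at H1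
    rw [Phi_symm] at hx
    exact fin2_plane ha hab hd hd1 (by linarith) hm H1 hx

end Pool.Agent.Lib.MP_8382de_an.W2
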