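import Pool.Agent.Lib.MP_8382de_an.W2.Key
import Pool.Agent.Lib.MP_8382de_an.ALG.BetR

/-!
# W2.Blk: the gamma block

`RepT_beta`: exactly the proof of `ALG.Rep_beta` (module ALG.BetR) with visible `θ`.
`MM_scale`: `js n (C r^k M_k) z = C js n M (r z)`.
`MM_block`: as in ALG.BetR (`BetR_data`, copy the computation): `θ = (β+β'-1)/(α+α') > 0`,
`r = β - α θ ∈ (0,1)`, `1 - r = β' - α' θ`; `N m = smax^(-(m+θ)) Γ(α m+β) Γ(α' m+β')/Γ((α+α') m+β+β'-1)`
is `RepT N θ`; `MM_key` and `MM_scale` with `C = smax^θ`, `r = smax`.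
-/

set_option autoImplicit false

namespace Pool.Agent.Lib.MP_8382de_an.W2

open ALG

theorem RepT_beta {a b θ r : ℝ} (ha : 0 < a) (hb : 0 < b) (hθ : 0 < θ) (hr0 : 0 < r)
    (hr1 : r < 1) :
    RepT (fun m => smax a b ^ (-((m : ℝ) + θ)) *
      (Real.Gamma (a * ((m : ℝ) + θ) + r) * Real.Gamma (b * ((m : ℝ) + θ) + (1 - r)) /
        Real.Gamma ((a + b) * ((m : ℝ) + θ)))) θ := by
  have hp : ∀ m : ℕ, 0 < (m : ℝ) + θ := fun m => by positivity
  refine ⟨wfn a b r, sfn a b, fun u hu => wfn_nonneg ha hb hr0 hr1 hu,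
    fun u hu => ⟨sfn_pos ha hb hu, sfn_le_one ha hb hu⟩,
    fun m => beta_int ha hb hr0 hr1 (hp m), fun m => ?_, ?_⟩
  · rw [beta_ftc ha hb hr0 hr1 (hp m), beta_eval ha hb hr0 hr1 (hp m)]
  · have h0 := hp 0
    have h1 : 0 < smax a b := smax_pos ha hb
    have g1 : 0 < Real.Gamma (a * (((0 : ℕ) : ℝ) + θ) + r) := Real.Gamma_pos_of_pos (by positivity)
    have g2 : 0 < Real.Gamma (b * (((0 : ℕ) : ℝ) + θ) + (1 - r)) :=
      Real.Gamma_pos_of_pos (by
        have : 0 < b * (((0 : ℕ) : ℝ) + θ) := by positivity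
        linarith)
    have g3 : 0 < Real.Gamma ((a + b) * (((0 : ℕ) : ℝ) + θ)) :=
      Real.Gamma_pos_of_pos (by positivity)
    exact mul_pos (Real.rpow_pos_of_pos h1 _) (div_pos (mul_pos g1 g2) g3)

theorem MM_scale {M : ℕ → ℝ} (h : MM M) {c r : ℝ} (hc : 0 < c) (hr : 0 < r) :
    MM (fun k => c * r ^ k * M k) := by
  refine ⟨fun k => mul_pos (mul_pos hc (pow_pos hr k)) (h.1 k), fun n z hz => ?_⟩
  have h1 : js n (fun k => c * r ^ k * M k) z = (c : ℂ) * js n M ((r : ℂ) * z) := by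
    unfold js
    rw [Finset.mul_sum]
    refine Finset.sum_congr rfl fun k _ => ?_
    rw [mul_pow]
    push_cast
    ring
  rw [h1] at hz
  have h2 : (c : ℂ) ≠ 0 := Complex.ofReal_ne_zero.2 hc.ne'
  have h3 := h.2 n _ ((mul_eq_zero.1 hz).resolve_left h2)
  rw [Complex.im_ofReal_mul] at h3
  exact (mul_eq_zero.1 h3).resolve_left hr.ne'

private theorem blk_data {a b α β : ℝ} (ha : 0 < a) (hb : 0 < b)
    (h1 : 1 < α + β) (hc1 : a * (β - 1) < b * α) (hc2 : b * (α - 1) < a * β) :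
    0 < (α + β - 1) / (a + b) ∧ 0 < α - a * ((α + β - 1) / (a + b)) ∧
      α - a * ((α + β - 1) / (a + b)) < 1 ∧
      (∀ x : ℝ, a * (x + (α + β - 1) / (a + b)) + (α - a * ((α + β - 1) / (a + b))) = a * x + α) ∧
      (∀ x : ℝ, b * (x + (α + β - 1) / (a + b)) + (1 - (α - a * ((α + β - 1) / (a + b)))) =
        b * x + β) ∧
      (∀ x : ℝ, (a + b) * (x + (α + β - 1) / (a + b)) = (a + b) * x + (α + β - 1)) := by
  have hc : 0 < a + b := by positivity
  have hθ : (a + b) * ((α + β - 1) / (a + b)) = α + β - 1 := by field_simp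
  refine ⟨div_pos (by linarith) hc, ?_, ?_, fun x => by ring, fun x => ?_, fun x => ?_⟩
  · have : α - a * ((α + β - 1) / (a + b)) = (b * α - a * (β - 1)) / (a + b) := by
      field_simp; ring
    rw [this]
    exact div_pos (by linarith) hc
  · have : 1 - (α - a * ((α + β - 1) / (a + b))) = (a * β - b * (α - 1)) / (a + b) := by
      field_simp; ring
    have h2 : 0 < (a * β - b * (α - 1)) / (a + b) := div_pos (by linarith) hc
    linarith
  · linear_combination hθ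
  · linear_combination hθ

private theorem blk_pow {s θ : ℝ} (hs : 0 < s) (n : ℕ) :
    s ^ θ * s ^ n * s ^ (-((n : ℝ) + θ)) = 1 := by
  rw [← Real.rpow_natCast, ← Real.rpow_add hs, ← Real.rpow_add hs]
  have : θ + (n : ℝ) + -((n : ℝ) + θ) = 0 := by ring
  rw [this, Real.rpow_zero]

theorem MM_block {α α' β β' s : ℝ} (hα : 0 < α) (hα' : 0 < α') (h0 : 1 < β + β')
    (hc1 : α' * (β - 1) < α * β') (hc2 : α * (β' - 1) < α' * β) (hs : 0 < s)
    (h1 : s ≤ 1 / 2 + 2 * ((β + β' - 1) / (α + α'))) (h2 : s ≤ 1 + (β + β' - 1) / (α + α')) :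
    MM (fun k => Real.Gamma (α * (k : ℝ) + β) * Real.Gamma (α' * (k : ℝ) + β') /
      Real.Gamma ((α + α') * (k : ℝ) + (β + β' - 1)) / Real.Gamma ((k : ℝ) + s)) := by
  obtain ⟨hθ, hr0, hr1, e1, e2, e3⟩ := blk_data hα hα' h0 hc2 hc1
  have hsm : 0 < smax α α' := smax_pos hα hα'
  have hM := MM_scale (MM_key hθ (RepT_beta hα hα' hθ hr0 hr1) hs h1 h2)
    (c := smax α α' ^ ((β + β' - 1) / (α + α'))) (r := smax α α')
    (Real.rpow_pos_of_pos hsm _) hsm
  have heq : (fun k : ℕ => Real.Gamma (α * (k : ℝ) + β) * Real.Gamma (α' * (k : ℝ) + β') /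
      Real.Gamma ((α + α') * (k : ℝ) + (β + β' - 1)) / Real.Gamma ((k : ℝ) + s)) =
    (fun k : ℕ => smax α α' ^ ((β + β' - 1) / (α + α')) * smax α α' ^ k *
      (smax α α' ^ (-((k : ℝ) + (β + β' - 1) / (α + α'))) *
      (Real.Gamma (α * ((k : ℝ) + (β + β' - 1) / (α + α')) +
        (β - α * ((β + β' - 1) / (α + α')))) *
        Real.Gamma (α' * ((k : ℝ) + (β + β' - 1) / (α + α')) +
        (1 - (β - α * ((β + β' - 1) / (α + α'))))) /
        Real.Gamma ((α + α') * ((k : ℝ) + (β + β' - 1) / (α + α')))) /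
        Real.Gamma ((k : ℝ) + s))) := by
    funext k
    have hp := blk_pow (θ := (β + β' - 1) / (α + α')) hsm k
    rw [e1, e2, e3]
    set G := Real.Gamma (α * (k : ℝ) + β) * Real.Gamma (α' * (k : ℝ) + β') /
        Real.Gamma ((α + α') * (k : ℝ) + (β + β' - 1)) with hG
    have h3 : ∀ A B C' D : ℝ, A * (B * C' / D) = (A * B) * (C' / D) := fun A B C' D => by ring
    rw [h3, hp, one_mul]
  rw [heq]
  exact hM

end Pool.Agent.Lib.MP_8382de_an.W2
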