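import Pool.Agent.Lib.MP_8382de_an.W2.Defs

/-!
# W2.Gmul: the multiplication formula at the points `m k + m x`

`Γ(m k + m x) = C (m^m)^k ∏_{i<m} Γ(k + x + i/m)` with `C = Γ(m x)/∏_{i<m} Γ(x + i/m) > 0`.
Induction on `k`: `Γ(m(k+1) + m x) = Γ(mk + mx) ∏_{i<m} (mk + mx + i)` (induction, `Real.Gamma_add_one`)
and `Γ(k+1+x+i/m) = (k+x+i/m) Γ(k+x+i/m)`, `∏_{i<m} m (k+x+i/m) = ∏ (mk+mx+i)`.
-/

set_option autoImplicit false

namespace Pool.Agent.Lib.MP_8382de_an.W2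

theorem gamma_add_nat {y : ℝ} (hy : 0 < y) (m : ℕ) :
    Real.Gamma (y + (m : ℝ)) = Real.Gamma y * ∏ i ∈ Finset.range m, (y + (i : ℝ)) := by
  induction m with
  | zero => simp
  | succ m ih =>
    have h1 : y + ((m + 1 : ℕ) : ℝ) = (y + (m : ℝ)) + 1 := by push_cast; ring
    have h2 : y + (m : ℝ) ≠ 0 := by positivity
    rw [h1, Real.Gamma_add_one h2, ih, Finset.prod_range_succ]
    ring

theorem gmul {m : ℕ} (hm : 0 < m) {x : ℝ} (hx : 0 < x) :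
    ∃ c : ℝ, 0 < c ∧ ∀ k : ℕ, Real.Gamma ((m : ℝ) * (k : ℝ) + (m : ℝ) * x) =
      c * ((m : ℝ) ^ m) ^ k * ∏ i ∈ Finset.range m, Real.Gamma ((k : ℝ) + (x + (i : ℝ) / (m : ℝ))) := by
  have hmr : (0 : ℝ) < m := by exact_mod_cast hm
  have hpos : 0 < ∏ i ∈ Finset.range m, Real.Gamma (x + (i : ℝ) / (m : ℝ)) := by
    apply Finset.prod_pos
    intro i _
    apply Real.Gamma_pos_of_pos
    positivity
  refine ⟨Real.Gamma ((m : ℝ) * x) / ∏ i ∈ Finset.range m, Real.Gamma (x + (i : ℝ) / (m : ℝ)),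
    div_pos (Real.Gamma_pos_of_pos (by positivity)) hpos, ?_⟩
  intro k
  induction k with
  | zero =>
    simp only [Nat.cast_zero, mul_zero, zero_add, pow_zero, mul_one]
    rw [div_mul_cancel₀ _ hpos.ne']
  | succ k ih =>
    have h1 : (m : ℝ) * ((k + 1 : ℕ) : ℝ) + (m : ℝ) * x =
        ((m : ℝ) * (k : ℝ) + (m : ℝ) * x) + (m : ℝ) := by push_cast; ring
    have hy : 0 < (m : ℝ) * (k : ℝ) + (m : ℝ) * x := by positivity
    rw [h1, gamma_add_nat hy, ih]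
    have h2 : ∀ i ∈ Finset.range m,
        Real.Gamma (((k + 1 : ℕ) : ℝ) + (x + (i : ℝ) / (m : ℝ))) =
          ((k : ℝ) + (x + (i : ℝ) / (m : ℝ))) * Real.Gamma ((k : ℝ) + (x + (i : ℝ) / (m : ℝ))) := by
      intro i _
      have h3 : ((k + 1 : ℕ) : ℝ) + (x + (i : ℝ) / (m : ℝ)) =
          ((k : ℝ) + (x + (i : ℝ) / (m : ℝ))) + 1 := by push_cast; ring
      have h4 : (k : ℝ) + (x + (i : ℝ) / (m : ℝ)) ≠ 0 := by positivity
      rw [h3, Real.Gamma_add_one h4]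
    rw [Finset.prod_congr rfl h2, Finset.prod_mul_distrib]
    have h5 : ∏ i ∈ Finset.range m, ((m : ℝ) * (k : ℝ) + (m : ℝ) * x + (i : ℝ)) =
        (m : ℝ) ^ m * ∏ i ∈ Finset.range m, ((k : ℝ) + (x + (i : ℝ) / (m : ℝ))) := by
      have h6 : (m : ℝ) ^ m = ∏ _i ∈ Finset.range m, (m : ℝ) := by
        rw [Finset.prod_const, Finset.card_range]
      rw [h6, ← Finset.prod_mul_distrib]
      apply Finset.prod_congr rfl
      intro i _
      have h7 : (m : ℝ) * ((i : ℝ) / (m : ℝ)) = (i : ℝ) := by field_simp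
      calc (m : ℝ) * (k : ℝ) + (m : ℝ) * x + (i : ℝ)
          = (m : ℝ) * (k : ℝ) + (m : ℝ) * x + (m : ℝ) * ((i : ℝ) / (m : ℝ)) := by rw [h7]
        _ = (m : ℝ) * ((k : ℝ) + (x + (i : ℝ) / (m : ℝ))) := by ring
    rw [h5, pow_succ]
    ring

end Pool.Agent.Lib.MP_8382de_an.W2
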