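import Pool.Agent.Lib.MP_8382de_an.W2.TMul
import Pool.Agent.Lib.MP_8382de_an.W2.Blk
import Pool.Agent.Lib.MP_8382de_an.W2.Gmul
import Pool.Agent.Lib.MP_8382de_an.ALG.LagG
import Pool.Agent.Lib.MP_8382de_an.ALG.Expo

/-!
# W2.Asm: assembly

Notation `δ = d + 1 > 1`, `D = c - a - b`. The sequence
`φ k = Γ(ak+1) Γ(bk+1)/Γ(ck+δ)/k!` is written as a product of

* `N_a/Γ(k+s_a)`, `N_a = Γ(ak+1) Γ((b+D)k+δ)/Γ(ck+δ)`  (`MM_block`: `α = a, β = 1, α' = b+D, β' = δ`),
* `N_b/Γ(k+s_b)`, `N_b = Γ(bk+1) Γ(Dk+δ)/Γ((b+D)k+δ)`   (`α = b, β = 1, α' = D, β' = δ`),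
* `asm_gt` (`D > m`): `N_m/Γ(k+s_c)`, `N_m = Γ(mk+mx) Γ((D-m)k+δ-mx+1)/Γ(Dk+δ)` (`α = m, β = m x,
  α' = D-m, β' = δ - m x + 1`; the conditions of `MM_block` are `δ/D < x` and `m x < m δ/D + 1`:
  `α'(β-1) < α β'` iff `D (m x - 1) < m δ`; `α (β'-1) < α' β` iff `m δ < D m x`), and the remaining
  `1/Γ((D-m)k+δ-mx+1)` (`T_gamma`; `δ - m x + 1 > 0` because `m x < m δ/D + 1 ≤ δ + 1`);
* `Γ(mk+mx) = c (m^m)^k ∏_{i<m} Γ(k+x+i/m)` (`gmul`); the slots `i = 0, 1, 2` are used for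
  `N_a, N_b, N_m` (`s_a = x`, `s_b = x + 1/m`, `s_c = x + 2/m`), the others are `T_gamma` with `e = 1`.

Start with `T_exp` (`1/k!`), then `T_mul` with the `MM_block`s, `T_gamma` for the other factors
(induction over a Finset product: `T (φ k / ∏_{i∈F} Γ(k+x+i/m))`), `T_scale`, `T_congr`.
`asm_eq` (`D = m`): `x = δ/m`, no `N_m`, slots `i = 0, 1`.
-/

set_option autoImplicit false

namespace Pool.Agent.Lib.MP_8382de_an.W2

open ALG

/-- division by a product of `Γ(k + y_i)` -/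
theorem T_gprod {φ : ℕ → ℝ} (h : T φ) (F : Finset ℕ) (y : ℕ → ℝ) (hy : ∀ i ∈ F, 0 < y i) :
    T (fun k => φ k / ∏ i ∈ F, Real.Gamma ((k : ℝ) + y i)) := by
  induction F using Finset.induction_on with
  | empty => exact T_congr h fun k => by simp
  | insert i F hi ih =>
    have h1 := ih fun j hj => hy j (Finset.mem_insert_of_mem hj)
    have h2 := T_gamma h1 (e := 1) (β := y i) zero_le_one (hy i (Finset.mem_insert_self i F))
    refine T_congr h2 fun k => ?_
    rw [Finset.prod_insert hi, one_mul, div_div, mul_comm]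

private theorem asm_range (m : ℕ) (hm : 3 ≤ m) (f : ℕ → ℝ) :
    ∏ i ∈ Finset.range m, f i = f 0 * f 1 * f 2 * ∏ i ∈ Finset.range (m - 3), f (i + 3) := by
  obtain ⟨n, rfl⟩ := Nat.exists_eq_add_of_le hm
  rw [show 3 + n = n + 1 + 1 + 1 by ring, Finset.prod_range_succ', Finset.prod_range_succ',
    Finset.prod_range_succ', show n + 1 + 1 + 1 - 3 = n by omega]
  have : ∀ i, f (i + 1 + 1 + 1) = f (i + 3) := fun i => rfl
  simp only [this]
  ring

private theorem asm_range2 (m : ℕ) (hm : 2 ≤ m) (f : ℕ → ℝ) :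
    ∏ i ∈ Finset.range m, f i = f 0 * f 1 * ∏ i ∈ Finset.range (m - 2), f (i + 2) := by
  obtain ⟨n, rfl⟩ := Nat.exists_eq_add_of_le hm
  rw [show 2 + n = n + 1 + 1 by ring, Finset.prod_range_succ', Finset.prod_range_succ',
    show n + 1 + 1 - 2 = n by omega]
  have : ∀ i, f (i + 1 + 1) = f (i + 2) := fun i => rfl
  simp only [this]
  ring

private theorem asm_shift (m j : ℕ) (f : ℕ → ℝ) :
    ∏ i ∈ Finset.range (m - j), f (i + j) = ∏ i ∈ (Finset.range (m - j)).image (fun i : ℕ => i + j), f i := by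
  rw [Finset.prod_image]
  intro x _ y _ hxy
  exact Nat.add_right_cancel hxy

private theorem asm_alg {ga gb gc gca gD gm gq s0 s1 s2 P C M F : ℝ} (hgc : gc ≠ 0)
    (hgca : gca ≠ 0) (hgD : gD ≠ 0) (hgq : gq ≠ 0) (h0 : s0 ≠ 0) (h1 : s1 ≠ 0) (h2 : s2 ≠ 0)
    (hP : P ≠ 0) (hC : C ≠ 0) (hM : M ≠ 0) (hF : F ≠ 0) (hg : gm = C * M * (s0 * s1 * s2 * P)) :
    C⁻¹ * M⁻¹ * (gm * gq / gD / s2 * (gb * gD / gca / s1 * (ga * gca / gc / s0 * (1 / F))) /
      gq / P) = ga * gb / gc / F := by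
  subst hg
  field_simp

private theorem asm_alg2 {ga gb gc gca gm s0 s1 P C M F : ℝ} (hgc : gc ≠ 0)
    (hgca : gca ≠ 0) (h0 : s0 ≠ 0) (h1 : s1 ≠ 0)
    (hP : P ≠ 0) (hC : C ≠ 0) (hM : M ≠ 0) (hF : F ≠ 0) (hg : gm = C * M * (s0 * s1 * P)) :
    C⁻¹ * M⁻¹ * (gb * gm / gca / s1 * (ga * gca / gc / s0 * (1 / F)) / P) =
      ga * gb / gc / F := by
  subst hg
  field_simp

theorem asm_gt {a b c δ x : ℝ} {m : ℕ} (ha : 0 < a) (hb : 0 < b) (hδ : 1 < δ) (hm : 3 ≤ m)
    (hD : (m : ℝ) < c - a - b) (H1 : a * (δ - 1) < c - a) (H2 : b * (δ - 1) < c - a - b)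
    (hx0 : δ / (c - a - b) < x) (hx1 : (m : ℝ) * x < m * (δ / (c - a - b)) + 1)
    (sa1 : x ≤ 1 / 2 + 2 * (δ / c)) (sa2 : x ≤ 1 + δ / c)
    (sb1 : x + 1 / m ≤ 1 / 2 + 2 * (δ / (c - a))) (sb2 : x + 1 / m ≤ 1 + δ / (c - a))
    (sm1 : x + 2 / m ≤ 1 / 2 + 2 * (δ / (c - a - b))) (sm2 : x + 2 / m ≤ 1 + δ / (c - a - b)) :
    T (fun k => Real.Gamma (a * (k : ℝ) + 1) * Real.Gamma (b * (k : ℝ) + 1) /
      Real.Gamma (c * (k : ℝ) + δ) / (k.factorial : ℝ)) := by
  have hm0 : (0 : ℝ) < m := by exact_mod_cast (by omega : 0 < m)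
  have hm3 : (3 : ℝ) ≤ m := by exact_mod_cast hm
  have hDpos : 0 < c - a - b := lt_trans hm0 hD
  have hx : 0 < x := lt_trans (div_pos (by linarith) hDpos) hx0
  have hdx : δ < x * (c - a - b) := by rwa [div_lt_iff₀ hDpos] at hx0
  have hxq : (c - a - b) * (m * x - 1) < m * δ := by
    have h1 : (c - a - b) * (m * x - 1) < (c - a - b) * (m * (δ / (c - a - b))) :=
      mul_lt_mul_of_pos_left (by linarith) hDpos
    have h2 : (c - a - b) * (m * (δ / (c - a - b))) = m * δ := by field_simp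
    linarith
  have hq : 0 < δ - m * x + 1 := by
    have h1 : m * (δ / (c - a - b)) ≤ δ := by
      rw [← mul_div_assoc, div_le_iff₀ hDpos]
      nlinarith
    linarith
  -- the three blocks
  have Ba := MM_block (α := a) (α' := c - a) (β := 1) (β' := δ) (s := x) ha (by linarith)
    (by linarith) (by nlinarith) (by linarith) hx
    (by
      have e : (1 + δ - 1) / (a + (c - a)) = δ / c := by congr 1 <;> ring
      rw [e]; exact sa1)
    (by
      have e : (1 + δ - 1) / (a + (c - a)) = δ / c := by congr 1 <;> ring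
      rw [e]; exact sa2)
  have Bb := MM_block (α := b) (α' := c - a - b) (β := 1) (β' := δ) (s := x + 1 / m) hb hDpos
    (by linarith) (by nlinarith) (by linarith) (by positivity)
    (by
      have e : (1 + δ - 1) / (b + (c - a - b)) = δ / (c - a) := by congr 1 <;> ring
      rw [e]; exact sb1)
    (by
      have e : (1 + δ - 1) / (b + (c - a - b)) = δ / (c - a) := by congr 1 <;> ring
      rw [e]; exact sb2)
  have Bm := MM_block (α := m) (α' := c - a - b - m) (β := m * x) (β' := δ - m * x + 1)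
    (s := x + 2 / m) hm0 (by linarith) (by linarith) (by nlinarith) (by nlinarith)
    (by positivity)
    (by
      have e : (m * x + (δ - m * x + 1) - 1) / ((m : ℝ) + (c - a - b - m)) = δ / (c - a - b) := by
        congr 1 <;> ring
      rw [e]; exact sm1)
    (by
      have e : (m * x + (δ - m * x + 1) - 1) / ((m : ℝ) + (c - a - b - m)) = δ / (c - a - b) := by
        congr 1 <;> ring
      rw [e]; exact sm2)
  obtain ⟨C, hC, hgm⟩ := gmul (m := m) (by omega) hx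
  have hT := T_scale (T_gprod (T_gamma (T_mul (T_mul (T_mul T_exp Ba) Bb) Bm)
      (e := c - a - b - m) (β := δ - m * x + 1) (by linarith) hq)
      ((Finset.range (m - 3)).image (fun i : ℕ => i + 3)) (fun i => x + (i : ℝ) / (m : ℝ))
      (fun i _ => by positivity)) (c := C⁻¹) (r := ((m : ℝ) ^ m)⁻¹) (by positivity) (by positivity)
  refine T_congr hT fun k => ?_
  have hk : (0 : ℝ) ≤ (k : ℝ) := Nat.cast_nonneg k
  have hg := hgm k
  rw [asm_range m hm, asm_shift m 3 (fun i => Real.Gamma ((k : ℝ) + (x + (i : ℝ) / (m : ℝ))))] at hg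
  push_cast at hg
  rw [zero_div, add_zero] at hg
  have hP : 0 < ∏ i ∈ (Finset.range (m - 3)).image (fun i : ℕ => i + 3),
      Real.Gamma ((k : ℝ) + (x + (i : ℝ) / (m : ℝ))) :=
    Finset.prod_pos fun i _ => Real.Gamma_pos_of_pos (by positivity)
  set P := ∏ i ∈ (Finset.range (m - 3)).image (fun i : ℕ => i + 3),
      Real.Gamma ((k : ℝ) + (x + (i : ℝ) / (m : ℝ))) with hPd
  have g0 : 0 < Real.Gamma ((k : ℝ) + x) := Real.Gamma_pos_of_pos (by positivity)
  have g1 : 0 < Real.Gamma ((k : ℝ) + (x + 1 / m)) := Real.Gamma_pos_of_pos (by positivity)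
  have g2 : 0 < Real.Gamma ((k : ℝ) + (x + 2 / m)) := Real.Gamma_pos_of_pos (by positivity)
  have g3 : 0 < Real.Gamma ((c - a - b - m) * (k : ℝ) + (δ - m * x + 1)) :=
    Real.Gamma_pos_of_pos (by
      have : 0 ≤ (c - a - b - m) * (k : ℝ) := mul_nonneg (by linarith) hk
      linarith)
  have g4 : 0 < Real.Gamma ((m : ℝ) * (k : ℝ) + m * x) := Real.Gamma_pos_of_pos (by positivity)
  have g5 : 0 < Real.Gamma ((c - a - b) * (k : ℝ) + δ) := Real.Gamma_pos_of_pos (by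
      have : 0 ≤ (c - a - b) * (k : ℝ) := mul_nonneg hDpos.le hk
      linarith)
  have g6 : 0 < Real.Gamma ((c - a) * (k : ℝ) + δ) := Real.Gamma_pos_of_pos (by
      have : 0 ≤ (c - a) * (k : ℝ) := mul_nonneg (by linarith) hk
      linarith)
  have g7 : 0 < Real.Gamma (c * (k : ℝ) + δ) := Real.Gamma_pos_of_pos (by
      have : 0 ≤ c * (k : ℝ) := mul_nonneg (by linarith) hk
      linarith)
  have f0 : (0 : ℝ) < (k.factorial : ℝ) := by exact_mod_cast Nat.factorial_pos k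
  have e1 : a + (c - a) = c := by ring
  have e2 : b + (c - a - b) = c - a := by ring
  have e3 : (m : ℝ) + (c - a - b - m) = c - a - b := by ring
  have e4 : 1 + δ - 1 = δ := by ring
  have e5 : m * x + (δ - m * x + 1) - 1 = δ := by ring
  rw [e1, e2, e3, e4, e5]
  have hmk : (0 : ℝ) < ((m : ℝ) ^ m) ^ k := by positivity
  rw [inv_pow]
  exact asm_alg g7.ne' g6.ne' g5.ne' g3.ne' g0.ne' g1.ne' g2.ne' hP.ne' hC.ne' hmk.ne' f0.ne' hg

theorem asm_eq {a b c δ : ℝ} {m : ℕ} (ha : 0 < a) (hb : 0 < b) (hδ : 1 < δ) (hm : 2 ≤ m)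
    (hD : c - a - b = m) (H1 : a * (δ - 1) < c - a) (H2 : b * (δ - 1) < c - a - b)
    (sa1 : δ / m ≤ 1 / 2 + 2 * (δ / c)) (sa2 : δ / m ≤ 1 + δ / c)
    (sb1 : δ / m + 1 / m ≤ 1 / 2 + 2 * (δ / (c - a))) (sb2 : δ / m + 1 / m ≤ 1 + δ / (c - a)) :
    T (fun k => Real.Gamma (a * (k : ℝ) + 1) * Real.Gamma (b * (k : ℝ) + 1) /
      Real.Gamma (c * (k : ℝ) + δ) / (k.factorial : ℝ)) := by
  have hm0 : (0 : ℝ) < m := by exact_mod_cast (by omega : 0 < m)
  have hDpos : 0 < c - a - b := by rw [hD]; exact hm0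
  have hx : 0 < δ / m := div_pos (by linarith) hm0
  have Ba := MM_block (α := a) (α' := c - a) (β := 1) (β' := δ) (s := δ / m) ha (by linarith)
    (by linarith) (by nlinarith) (by linarith) hx
    (by
      have e : (1 + δ - 1) / (a + (c - a)) = δ / c := by congr 1 <;> ring
      rw [e]; exact sa1)
    (by
      have e : (1 + δ - 1) / (a + (c - a)) = δ / c := by congr 1 <;> ring
      rw [e]; exact sa2)
  have Bb := MM_block (α := b) (α' := c - a - b) (β := 1) (β' := δ) (s := δ / m + 1 / m) hb hDpos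
    (by linarith) (by nlinarith) (by linarith) (by positivity)
    (by
      have e : (1 + δ - 1) / (b + (c - a - b)) = δ / (c - a) := by congr 1 <;> ring
      rw [e]; exact sb1)
    (by
      have e : (1 + δ - 1) / (b + (c - a - b)) = δ / (c - a) := by congr 1 <;> ring
      rw [e]; exact sb2)
  obtain ⟨C, hC, hgm⟩ := gmul (m := m) (by omega) hx
  have hT := T_scale (T_gprod (T_mul (T_mul T_exp Ba) Bb)
      ((Finset.range (m - 2)).image (fun i : ℕ => i + 2)) (fun i => δ / m + (i : ℝ) / (m : ℝ))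
      (fun i _ => by positivity)) (c := C⁻¹) (r := ((m : ℝ) ^ m)⁻¹) (by positivity) (by positivity)
  refine T_congr hT fun k => ?_
  have hk : (0 : ℝ) ≤ (k : ℝ) := Nat.cast_nonneg k
  have hg := hgm k
  rw [asm_range2 m hm, asm_shift m 2 (fun i => Real.Gamma ((k : ℝ) + (δ / m + (i : ℝ) / (m : ℝ))))]
    at hg
  push_cast at hg
  rw [zero_div, add_zero] at hg
  have hmx : (m : ℝ) * (δ / m) = δ := by field_simp
  rw [hmx] at hg
  have hP : 0 < ∏ i ∈ (Finset.range (m - 2)).image (fun i : ℕ => i + 2),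
      Real.Gamma ((k : ℝ) + (δ / m + (i : ℝ) / (m : ℝ))) :=
    Finset.prod_pos fun i _ => Real.Gamma_pos_of_pos (by positivity)
  set P := ∏ i ∈ (Finset.range (m - 2)).image (fun i : ℕ => i + 2),
      Real.Gamma ((k : ℝ) + (δ / m + (i : ℝ) / (m : ℝ))) with hPd
  have g0 : 0 < Real.Gamma ((k : ℝ) + δ / m) := Real.Gamma_pos_of_pos (by positivity)
  have g1 : 0 < Real.Gamma ((k : ℝ) + (δ / m + 1 / m)) := Real.Gamma_pos_of_pos (by positivity)
  have g5 : 0 < Real.Gamma ((m : ℝ) * (k : ℝ) + δ) := Real.Gamma_pos_of_pos (by positivity)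
  have g6 : 0 < Real.Gamma ((c - a) * (k : ℝ) + δ) := Real.Gamma_pos_of_pos (by
      have : 0 ≤ (c - a) * (k : ℝ) := mul_nonneg (by linarith) hk
      linarith)
  have g7 : 0 < Real.Gamma (c * (k : ℝ) + δ) := Real.Gamma_pos_of_pos (by
      have : 0 ≤ c * (k : ℝ) := mul_nonneg (by linarith) hk
      linarith)
  have f0 : (0 : ℝ) < (k.factorial : ℝ) := by exact_mod_cast Nat.factorial_pos k
  have e1 : a + (c - a) = c := by ring
  have e2 : b + (c - a - b) = c - a := by ring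
  have e4 : 1 + δ - 1 = δ := by ring
  rw [e1, e2, e4, hD]
  have hmk : (0 : ℝ) < ((m : ℝ) ^ m) ^ k := by positivity
  rw [inv_pow]
  exact asm_alg2 g7.ne' g6.ne' g0.ne' g1.ne' hP.ne' hC.ne' hmk.ne' f0.ne' hg

end Pool.Agent.Lib.MP_8382de_an.W2
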