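import Pool.Agent.Lib.MP_8382de_an.W2.LagS

/-!
# W2.Comp: iteration of Laguerre's theorem

`comp_ms`: if `∑_{k≤n} C(n,k) b_k x^k ≠ 0` for all `Im x > 0` (`n = card S`) and all elements of `S`
have positive imaginary part, then `∑_{k≤n} e_k(S) b_k ≠ 0`, where `e_k(S)` is the `k`-th coefficient
of `∏_{c ∈ S} (1 + c X)`. Induction over `S` (`Multiset.induction_on`), all `b` at once. Empty:
the hypothesis for `x = I`. `c ::ₘ S`: the coefficients of `(1 + c X) P` are `P_0`,
`P_{k+1} + c P_k`, so the sum is `∑_{k≤n} P_k (b_k + c b_{k+1})` (`P_{n+1} = 0` because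
`natDegree P ≤ card S`); use `lag_step` and the induction hypothesis.
-/

set_option autoImplicit false

namespace Pool.Agent.Lib.MP_8382de_an.W2

open Polynomial

private theorem comp_deg (S : Multiset ℂ) :
    (S.map (fun c => (1 + C c * X : Polynomial ℂ))).prod.natDegree ≤ S.card := by
  induction S using Multiset.induction_on with
  | empty => simp
  | cons c S ih =>
    rw [Multiset.map_cons, Multiset.prod_cons, Multiset.card_cons]
    refine natDegree_mul_le.trans ?_
    have h1 : (1 + C c * X : Polynomial ℂ).natDegree ≤ 1 := by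
      have : (1 + C c * X : Polynomial ℂ) = C c * X + C 1 := by rw [C_1, add_comm]
      rw [this]
      exact natDegree_linear_le
    omega

theorem comp_ms (S : Multiset ℂ) : ∀ (b : ℕ → ℂ), (∀ c ∈ S, 0 < c.im) →
    (∀ x : ℂ, 0 < x.im →
      ∑ k ∈ Finset.range (S.card + 1), ((S.card.choose k : ℕ) : ℂ) * b k * x ^ k ≠ 0) →
    ∑ k ∈ Finset.range (S.card + 1),
      (S.map (fun c => (1 + C c * X : Polynomial ℂ))).prod.coeff k * b k ≠ 0 := by
  induction S using Multiset.induction_on with
  | empty =>
    intro b _ h
    have h1 := h Complex.I (by simp)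
    simpa using h1
  | cons c S ih =>
    intro b hc h
    have hcim : 0 < c.im := hc c (Multiset.mem_cons_self c S)
    have hS : ∀ x ∈ S, 0 < x.im := fun x hx => hc x (Multiset.mem_cons_of_mem hx)
    rw [Multiset.card_cons] at h ⊢
    have h2 := ih (fun k => b k + c * b (k + 1)) hS (fun x hx => lag_step hcim h hx)
    set P := (S.map (fun c => (1 + C c * X : Polynomial ℂ))).prod with hP
    have hdeg : P.coeff (S.card + 1) = 0 :=
      coeff_eq_zero_of_natDegree_lt (lt_of_le_of_lt (comp_deg S) (Nat.lt_succ_self _))
    rw [Multiset.map_cons, Multiset.prod_cons, ← hP]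
    have hco0 : ((1 + C c * X) * P).coeff 0 = P.coeff 0 := by
      rw [add_mul, one_mul, mul_assoc, coeff_add, coeff_C_mul, coeff_X_mul_zero, mul_zero, add_zero]
    have hco1 : ∀ k, ((1 + C c * X) * P).coeff (k + 1) = P.coeff (k + 1) + c * P.coeff k := by
      intro k
      rw [add_mul, one_mul, mul_assoc, coeff_add, coeff_C_mul, coeff_X_mul]
    have key : ∑ k ∈ Finset.range (S.card + 1 + 1), ((1 + C c * X) * P).coeff k * b k =
        ∑ k ∈ Finset.range (S.card + 1), P.coeff k * (b k + c * b (k + 1)) := by
      rw [Finset.sum_range_succ']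
      rw [hco0]
      have e1 : ∑ k ∈ Finset.range (S.card + 1), ((1 + C c * X) * P).coeff (k + 1) * b (k + 1) =
          ∑ k ∈ Finset.range (S.card + 1), P.coeff (k + 1) * b (k + 1) +
            ∑ k ∈ Finset.range (S.card + 1), c * P.coeff k * b (k + 1) := by
        rw [← Finset.sum_add_distrib]
        refine Finset.sum_congr rfl fun k _ => ?_
        rw [hco1]
        ring
      have e2 : ∑ k ∈ Finset.range (S.card + 1), P.coeff (k + 1) * b (k + 1) + P.coeff 0 * b 0 =
          ∑ k ∈ Finset.range (S.card + 1), P.coeff k * b k := by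
        rw [← Finset.sum_range_succ' (fun k => P.coeff k * b k), Finset.sum_range_succ, hdeg, zero_mul,
          add_zero]
      have e3 : ∑ k ∈ Finset.range (S.card + 1), P.coeff k * (b k + c * b (k + 1)) =
          ∑ k ∈ Finset.range (S.card + 1), P.coeff k * b k +
            ∑ k ∈ Finset.range (S.card + 1), c * P.coeff k * b (k + 1) := by
        rw [← Finset.sum_add_distrib]
        refine Finset.sum_congr rfl fun k _ => ?_
        ring
      rw [e1, e3, ← e2]
      ring
    rw [key]
    exact h2

end Pool.Agent.Lib.MP_8382de_an.W2
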