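import Pool.Agent.Lib.MP_8382de_an.ALG.Main

/-!
# MP_8382de_an, module W2.Defs (complete, do not change)

Second theorem on the zeros of the two-gamma Wright function: composition theorem and Sonin's
function for the Laguerre polynomials.

* `js n M z`  : the Jensen polynomial `∑_{k≤n} C(n,k) M_k z^k`.
* `MM M`      : `M_k > 0` and all Jensen polynomials have only real zeros (multiplier sequence).
* `RepT N θ`  : `N m = ∫_0^1 w(u) (1 - s(u)^(m+θ)) du`, `w ≥ 0`, `0 < s ≤ 1`, `N 0 > 0`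
                (this is `ALG.Rep` with a visible `θ`).
* `Lg n s`    : the Laguerre polynomial `∑ C(n,k) (-X)^k / Γ(k+s)`.
* `Gg n s w`  : `X (Lg n s)' + w Lg n s = ∑ C(n,k) (k+w) (-X)^k / Γ(k+s)`.
-/

set_option autoImplicit false

namespace Pool.Agent.Lib.MP_8382de_an.W2

open Polynomial MeasureTheory

/-- Jensen polynomial -/
noncomputable def js (n : ℕ) (M : ℕ → ℝ) (z : ℂ) : ℂ :=
  ∑ k ∈ Finset.range (n + 1), ((n.choose k : ℕ) : ℂ) * ((M k : ℝ) : ℂ) * z ^ k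

/-- positive multiplier sequence -/
def MM (M : ℕ → ℝ) : Prop :=
  (∀ k, 0 < M k) ∧ ∀ (n : ℕ) (z : ℂ), js n M z = 0 → z.im = 0

/-- Bernstein representation with shift `θ` -/
def RepT (N : ℕ → ℝ) (θ : ℝ) : Prop :=
  ∃ w s : ℝ → ℝ,
    (∀ u ∈ Set.Ioo (0 : ℝ) 1, 0 ≤ w u) ∧
    (∀ u ∈ Set.Ioo (0 : ℝ) 1, 0 < s u ∧ s u ≤ 1) ∧
    (∀ m : ℕ, IntegrableOn
      (fun u => w u * (1 - s u ^ ((m : ℝ) + θ))) (Set.Ioo 0 1)) ∧
    (∀ m : ℕ, N m = ∫ u in Set.Ioo (0 : ℝ) 1, w u * (1 - s u ^ ((m : ℝ) + θ))) ∧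
    0 < N 0

/-- Laguerre polynomial (up to a factor) -/
noncomputable def Lg (n : ℕ) (s : ℝ) : Polynomial ℝ :=
  ∑ k ∈ Finset.range (n + 1),
    monomial k ((n.choose k : ℝ) * (-1) ^ k / Real.Gamma ((k : ℝ) + s))

/-- `x^(1-w) (x^w Lg)'` -/
noncomputable def Gg (n : ℕ) (s w : ℝ) : Polynomial ℝ :=
  X * derivative (Lg n s) + C w * Lg n s

lemma coeff_Lg (n : ℕ) (s : ℝ) (k : ℕ) :
    (Lg n s).coeff k = (n.choose k : ℝ) * (-1) ^ k / Real.Gamma ((k : ℝ) + s) := by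
  unfold Lg
  rw [finset_sum_coeff]
  simp only [coeff_monomial]
  rw [Finset.sum_ite_eq']
  split_ifs with h
  · rfl
  · have : n.choose k = 0 := Nat.choose_eq_zero_of_lt (by
      simp only [Finset.mem_range] at h; omega)
    rw [this]
    simp

lemma coeff_Gg (n : ℕ) (s w : ℝ) (k : ℕ) :
    (Gg n s w).coeff k = ((k : ℝ) + w) * (Lg n s).coeff k := by
  unfold Gg
  rw [coeff_add, coeff_C_mul]
  cases k with
  | zero => simp
  | succ k =>
    rw [coeff_X_mul, coeff_derivative]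
    push_cast
    ring

end Pool.Agent.Lib.MP_8382de_an.W2
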