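import Pool.Agent.Lib.MP_8382de_an.W2.Defs

/-!
# W2.Tra: transfer of real zeros (partial fractions)

Let `G` be a real polynomial of degree `n ≥ 1` with only real zeros, `Q` real, `deg Q ≤ n`, and
`G'(ζ) Q(ζ) < 0` at every real zero `ζ` of `G`. Then `Q` has only real zeros.
Proof. `G'(ζ) ≠ 0` at every zero, so `G` has `n` distinct real zeros, `S = G.roots.toFinset`
and `G = C l * ∏_{ζ∈S} (X - C ζ)`. For `z ∈ ℂ`, `Im z ≠ 0` (so `G(z) ≠ 0`):
`Q(z)/G(z) = κ + ∑_{ζ∈S} c_ζ/(z - ζ)`, `c_ζ = Q(ζ)/G'(ζ) < 0`, `κ = Q_n/G_n` (Lagrange interpolation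
over `ℂ`). So `Im (Q(z)/G(z)) = Im z ∑ (-c_ζ)/|z-ζ|²` has the sign of `Im z` and `Q(z) ≠ 0`.
-/

set_option autoImplicit false

namespace Pool.Agent.Lib.MP_8382de_an.W2

open Polynomial

theorem transfer {G Q : Polynomial ℝ} {n : ℕ} (hn : 0 < n) (hG : G.natDegree = n)
    (hQ : Q.natDegree ≤ n) (hreal : ∀ z : ℂ, aeval z G = 0 → z.im = 0)
    (hsgn : ∀ ζ : ℝ, G.eval ζ = 0 → (derivative G).eval ζ * Q.eval ζ < 0)
    {z : ℂ} (hz : aeval z Q = 0) : z.im = 0 := by
  classical
  by_contra hzim
  have hG0 : G ≠ 0 := by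
    rintro rfl
    simp at hG
    omega
  -- G splits
  have hsplit : G.Splits := by
    refine Splits.of_splits_map (algebraMap ℝ ℂ) (IsAlgClosed.splits _) ?_
    intro a ha
    rw [mem_roots (Polynomial.map_ne_zero hG0), IsRoot.def, eval_map_algebraMap] at ha
    exact ⟨a.re, Complex.ext rfl (hreal a ha).symm⟩
  have hcard : G.roots.card = n := by rw [← hG]; exact hsplit.natDegree_eq_card_roots.symm
  have hnodup : G.roots.Nodup := by
    rw [Multiset.nodup_iff_count_le_one]
    intro a
    rw [count_roots]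
    by_contra hlt
    push Not at hlt
    rw [one_lt_rootMultiplicity_iff_isRoot hG0] at hlt
    have := hsgn a hlt.1
    rw [hlt.2.eq_zero] at this
    simp at this
  set S : Finset ℝ := G.roots.toFinset with hS
  have hScard : S.card = n := by
    rw [hS, Multiset.toFinset_card_of_nodup hnodup, hcard]
  have hSne : S.Nonempty := by
    rw [← Finset.card_pos, hScard]; exact hn
  have hmem : ∀ ζ ∈ S, G.eval ζ = 0 := by
    intro ζ hζ
    rw [hS, Multiset.mem_toFinset] at hζ
    exact (isRoot_of_mem_roots hζ)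
  set l : ℝ := G.leadingCoeff with hl
  have hl0 : l ≠ 0 := leadingCoeff_ne_zero.mpr hG0
  have hGprod : G = C l * Lagrange.nodal S id := by
    have h1 := hsplit.eq_prod_roots
    have h2 : (G.roots.map (fun a => X - C a)).prod = Lagrange.nodal S id := by
      rw [Lagrange.nodal_eq, hS]
      rw [Finset.prod_eq_multiset_prod, Multiset.toFinset_val, Multiset.dedup_eq_self.mpr hnodup]
      rfl
    rw [h2] at h1
    exact h1
  -- everything over ℂ
  set v : ℝ → ℂ := fun a => (a : ℂ) with hv
  have hvinj : Set.InjOn v S := fun a _ b _ h => Complex.ofReal_injective h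
  have hnodalmap : (Lagrange.nodal S id : ℝ[X]).map (algebraMap ℝ ℂ) = Lagrange.nodal S v := by
    rw [Lagrange.nodal_eq, Lagrange.nodal_eq, Polynomial.map_prod]
    refine Finset.prod_congr rfl fun i _ => ?_
    simp [hv]
  have hGmap : G.map (algebraMap ℝ ℂ) = C (l : ℂ) * Lagrange.nodal S v := by
    conv_lhs => rw [hGprod]
    rw [Polynomial.map_mul, hnodalmap]
    simp
  set κ : ℝ := Q.coeff n / l with hκ
  set R : ℝ[X] := Q - C κ * G with hR
  have hRdeg : R.degree < S.card := by
    rw [hScard]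
    rw [degree_lt_iff_coeff_zero]
    intro m hm
    rw [hR, coeff_sub, coeff_C_mul]
    rcases hm.eq_or_lt with rfl | hlt
    · have : G.coeff n = l := by rw [hl, leadingCoeff, hG]
      rw [this, hκ]
      field_simp
      ring
    · rw [coeff_eq_zero_of_natDegree_lt (lt_of_le_of_lt hQ hlt),
        coeff_eq_zero_of_natDegree_lt (by rw [hG]; exact hlt)]
      ring
  have hRmapdeg : (R.map (algebraMap ℝ ℂ)).degree < S.card := by
    rw [degree_map]; exact hRdeg
  have hRval : ∀ i ∈ S, (R.map (algebraMap ℝ ℂ)).eval (v i) = ((Q.eval i : ℝ) : ℂ) := by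
    intro i hi
    have : (R.map (algebraMap ℝ ℂ)).eval (v i) = ((R.eval i : ℝ) : ℂ) := by
      rw [hv]
      simp only
      rw [← Complex.coe_algebraMap, eval_map_apply]
    rw [this, hR, eval_sub, eval_mul, hmem i hi]
    simp
  have hint := Lagrange.eq_interpolate_of_eval_eq (r := fun i : ℝ => ((Q.eval i : ℝ) : ℂ))
    hvinj hRmapdeg hRval
  have hzne : ∀ i ∈ S, z ≠ v i := by
    intro i _ h
    apply hzim
    rw [h]
    simp [hv]
  have hev := congrArg (fun p => p.eval z) hint
  rw [Lagrange.eval_interpolate_not_at_node _ hzne] at hev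
  have hRz : (R.map (algebraMap ℝ ℂ)).eval z = - ((κ : ℂ) * ((l : ℂ) * (Lagrange.nodal S v).eval z)) := by
    rw [hR, Polynomial.map_sub, Polynomial.map_mul, eval_sub, eval_mul, hGmap]
    rw [eval_map_algebraMap, hz]
    simp
  rw [hRz] at hev
  have hnz : (Lagrange.nodal S v).eval z ≠ 0 := by
    rw [Lagrange.eval_nodal]
    exact Finset.prod_ne_zero_iff.mpr fun i hi => sub_ne_zero.mpr (hzne i hi)
  have hsum : (∑ i ∈ S, Lagrange.nodalWeight S v i * (z - v i)⁻¹ * ((Q.eval i : ℝ) : ℂ))
      = - ((κ * l : ℝ) : ℂ) := by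
    have := hev
    apply mul_left_cancel₀ hnz
    rw [← this]
    push_cast
    ring
  -- the weights
  have hw : ∀ i ∈ S, Lagrange.nodalWeight S v i = ((l / (derivative G).eval i : ℝ) : ℂ) := by
    intro i hi
    rw [Lagrange.nodalWeight_eq_eval_derivative_nodal hi]
    have h1 : (derivative (G.map (algebraMap ℝ ℂ))).eval (v i)
        = (l : ℂ) * (derivative (Lagrange.nodal S v)).eval (v i) := by
      rw [hGmap, derivative_C_mul, eval_mul, eval_C]
    have h2 : (derivative (G.map (algebraMap ℝ ℂ))).eval (v i)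
        = (((derivative G).eval i : ℝ) : ℂ) := by
      rw [derivative_map, hv]
      simp only
      rw [← Complex.coe_algebraMap, eval_map_apply]
    rw [h2] at h1
    have hne : (derivative G).eval i ≠ 0 := by
      intro h0
      have := hsgn i (hmem i hi)
      rw [h0] at this
      simp at this
    have hneC : (((derivative G).eval i : ℝ) : ℂ) ≠ 0 := by exact_mod_cast hne
    have hlC : (l : ℂ) ≠ 0 := by exact_mod_cast hl0
    have hdne : (derivative (Lagrange.nodal S v)).eval (v i) ≠ 0 := by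
      intro h0
      rw [h0, mul_zero] at h1
      exact hneC h1
    rw [Complex.ofReal_div, h1]
    field_simp
  have him := congrArg Complex.im hsum
  rw [Complex.im_sum] at him
  have hterm : ∀ i ∈ S, (Lagrange.nodalWeight S v i * (z - v i)⁻¹ * ((Q.eval i : ℝ) : ℂ)).im
      = (l * z.im) * (-(Q.eval i / (derivative G).eval i) / Complex.normSq (z - v i)) := by
    intro i hi
    rw [hw i hi]
    rw [Complex.im_mul_ofReal, Complex.im_ofReal_mul, Complex.inv_im]
    simp only [hv, Complex.sub_im, Complex.ofReal_im, sub_zero]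
    ring
  rw [Finset.sum_congr rfl hterm, ← Finset.mul_sum] at him
  simp only [Complex.neg_im, Complex.ofReal_im, neg_zero] at him
  have hpos : 0 < ∑ i ∈ S, (-(Q.eval i / (derivative G).eval i) / Complex.normSq (z - v i)) := by
    apply Finset.sum_pos _ hSne
    intro i hi
    apply div_pos
    · have h1 := hsgn i (hmem i hi)
      rw [neg_pos]
      rcases mul_neg_iff.mp h1 with ⟨ha, hb⟩ | ⟨ha, hb⟩
      · exact div_neg_of_neg_of_pos hb ha
      · exact div_neg_of_pos_of_neg hb ha
    · exact Complex.normSq_pos.mpr (sub_ne_zero.mpr (hzne i hi))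
  rcases mul_eq_zero.mp him with h | h
  · rcases mul_eq_zero.mp h with h | h
    · exact hl0 h
    · exact hzim h
  · exact hpos.ne' h

end Pool.Agent.Lib.MP_8382de_an.W2
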