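import Pool.Agent.Lib.MP_8382de_an.W2.Zer
import Pool.Agent.Lib.MP_8382de_an.W2.Tra
import Pool.Agent.Lib.MP_8382de_an.ALG.HurP

/-!
# W2.Key: a Bernstein multiplier divided by `Γ(k+s)` is a multiplier sequence

`key_sign`: `RepT N θ`, `θ > 0`, `s ≤ 1/2 + 2θ`, `s ≤ 1 + θ`, `g(ζ) = 0` (`g = Gg n s θ`), `ζ > 0`:
for `q = mulc N (Lg n s)` one has `q(ζ) p(ζ) > 0`, `p = Lg n s`. Indeed
`q(ζ) p(ζ) = ∫ w(u) (p(ζ)² - s(u)^θ p(s(u) ζ) p(ζ)) du` (finite sum of integrals; `N m = ∫ ...`,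
`s^(m+θ) = s^m s^θ`), and the integrand is `≥ 0` by `sonin` (for `s(u) ≤ 1`) and `> 0` if
`w(u) > 0` and `s(u) < 1` (`sonin_lt`). If the integral were `0` then the integrand would be `0` a.e. (on
`(0,1)`; `setIntegral_eq_zero_iff_of_nonneg_ae`), so `w(u) (1 - s(u)^θ) = 0` a.e. and `N 0 = 0`,
contradiction.

`MM_key`: positivity: `N k > 0` (`RepT` gives `Rep`, `Rep.pos`). `n = 0`: `js 0 M z = M 0 ≠ 0`.
`n ≥ 1`: `transfer` with `G = Gg n s θ` (`Gg_deg`, `Gg_real`), `Q = mulc N (Lg n s)`; at a real zero `ζ`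
of `G`, `ζ > 0` (`Gg_real`), `G'(ζ) p(ζ) < 0` (`Gg_sign`) and `Q(ζ) p(ζ) > 0` (`key_sign`), hence
`G'(ζ) Q(ζ) < 0`. `js n M z = aeval (-z) Q`.
-/

set_option autoImplicit false

namespace Pool.Agent.Lib.MP_8382de_an.W2

open Polynomial MeasureTheory ALG

theorem key_sign {N : ℕ → ℝ} {θ : ℝ} (hθ : 0 < θ) (hN : RepT N θ) {n : ℕ} {s : ℝ} (hs : 0 < s)
    (h1 : s ≤ 1 / 2 + 2 * θ) (h2 : s ≤ 1 + θ) {ζ : ℝ} (hζ : 0 < ζ)
    (hg : (Gg n s θ).eval ζ = 0) :
    0 < (mulc N (Lg n s)).eval ζ * (Lg n s).eval ζ := by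
  obtain ⟨w, σ, hw, hσ, hint, hNm, hN0⟩ := hN
  set p := Lg n s with hp
  set F : ℝ → ℝ := fun u => ∑ m ∈ Finset.range (p.natDegree + 1),
    (p.coeff m * ζ ^ m * p.eval ζ) * (w u * (1 - σ u ^ ((m : ℝ) + θ))) with hF
  have hFint : IntegrableOn F (Set.Ioo 0 1) := by
    refine integrable_finsetSum _ fun m _ => ?_
    exact (hint m).const_mul _
  have hval : (mulc N p).eval ζ * p.eval ζ = ∫ u in Set.Ioo (0 : ℝ) 1, F u := by
    rw [hF]
    rw [integral_finsetSum _ fun m _ => (hint m).const_mul _]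
    unfold mulc
    rw [eval_finsetSum, Finset.sum_mul]
    refine Finset.sum_congr rfl fun m _ => ?_
    rw [integral_const_mul, ← hNm m, eval_monomial]
    ring
  have hFeq : ∀ u ∈ Set.Ioo (0 : ℝ) 1,
      F u = w u * (p.eval ζ ^ 2 - (σ u ^ θ * p.eval (σ u * ζ)) * p.eval ζ) := by
    intro u hu
    have hσ0 := (hσ u hu).1
    have e1 : p.eval ζ = ∑ m ∈ Finset.range (p.natDegree + 1), p.coeff m * ζ ^ m :=
      eval_eq_sum_range ζ
    have e2 : σ u ^ θ * p.eval (σ u * ζ) =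
        ∑ m ∈ Finset.range (p.natDegree + 1), p.coeff m * ζ ^ m * σ u ^ ((m : ℝ) + θ) := by
      rw [eval_eq_sum_range (σ u * ζ), Finset.mul_sum]
      refine Finset.sum_congr rfl fun m _ => ?_
      rw [Real.rpow_add hσ0, Real.rpow_natCast, mul_pow]
      ring
    have e3 : F u = w u * ((∑ m ∈ Finset.range (p.natDegree + 1), p.coeff m * ζ ^ m) -
        ∑ m ∈ Finset.range (p.natDegree + 1), p.coeff m * ζ ^ m * σ u ^ ((m : ℝ) + θ)) *
          p.eval ζ := by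
      rw [hF, ← Finset.sum_sub_distrib, Finset.mul_sum, Finset.sum_mul]
      refine Finset.sum_congr rfl fun m _ => ?_
      ring
    rw [e3, ← e2, ← e1]
    ring
  have hpne : p.eval ζ ≠ 0 := sonin_ne hs hθ h1 h2 hζ hg
  have hsub : ∀ u ∈ Set.Ioo (0 : ℝ) 1,
      (σ u ^ θ * p.eval (σ u * ζ)) * p.eval ζ ≤ p.eval ζ ^ 2 := by
    intro u hu
    have h3 := sonin hs hθ h1 h2 hζ hg (hσ u hu).1 (hσ u hu).2
    calc (σ u ^ θ * p.eval (σ u * ζ)) * p.eval ζ
        ≤ |(σ u ^ θ * p.eval (σ u * ζ)) * p.eval ζ| := le_abs_self _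
      _ = |σ u ^ θ * p.eval (σ u * ζ)| * |p.eval ζ| := abs_mul _ _
      _ ≤ |p.eval ζ| * |p.eval ζ| := mul_le_mul_of_nonneg_right h3 (abs_nonneg _)
      _ = p.eval ζ ^ 2 := by rw [← abs_mul, ← sq, abs_of_nonneg (sq_nonneg _)]
  have hnn : ∀ u ∈ Set.Ioo (0 : ℝ) 1, 0 ≤ F u := by
    intro u hu
    rw [hFeq u hu]
    exact mul_nonneg (hw u hu) (by linarith [hsub u hu])
  rw [hval]
  refine lt_of_le_of_ne (setIntegral_nonneg measurableSet_Ioo hnn) fun h0 => ?_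
  have hae : 0 ≤ᵐ[volume.restrict (Set.Ioo (0 : ℝ) 1)] F := by
    filter_upwards [ae_restrict_mem measurableSet_Ioo] with u hu using hnn u hu
  have hz := (setIntegral_eq_zero_iff_of_nonneg_ae hae hFint).mp h0.symm
  have hN00 : N 0 = 0 := by
    rw [hNm 0]
    have : ∀ᵐ u ∂(volume.restrict (Set.Ioo (0 : ℝ) 1)),
        w u * (1 - σ u ^ (((0 : ℕ) : ℝ) + θ)) = 0 := by
      filter_upwards [ae_restrict_mem measurableSet_Ioo, hz] with u hu hFu
      have hFu0 : F u = 0 := hFu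
      rw [hFeq u hu] at hFu0
      rcases mul_eq_zero.mp hFu0 with h | h
      · rw [h, zero_mul]
      · rcases (hσ u hu).2.lt_or_eq with hlt | heq
        · exfalso
          have h3 := sonin_lt hs hθ h1 h2 hζ hg (hσ u hu).1 hlt
          have h4 : |σ u ^ θ * p.eval (σ u * ζ)| * |p.eval ζ| < |p.eval ζ| * |p.eval ζ| :=
            mul_lt_mul_of_pos_right h3 (abs_pos.mpr hpne)
          have h5 : (σ u ^ θ * p.eval (σ u * ζ)) * p.eval ζ = p.eval ζ ^ 2 := by linarith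
          rw [← abs_mul, h5, ← abs_mul, ← sq] at h4
          exact lt_irrefl _ h4
        · rw [heq, Real.one_rpow, sub_self, mul_zero]
    rw [integral_congr_ae this]
    simp
  exact hN0.ne' hN00

theorem MM_key {N : ℕ → ℝ} {θ : ℝ} (hθ : 0 < θ) (hN : RepT N θ) {s : ℝ} (hs : 0 < s)
    (h1 : s ≤ 1 / 2 + 2 * θ) (h2 : s ≤ 1 + θ) :
    MM (fun k => N k / Real.Gamma ((k : ℝ) + s)) := by
  have hrep : Rep N := by
    obtain ⟨w, σ, hw, hσ, hint, hNm, hN0⟩ := hN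
    exact ⟨w, σ, θ, hθ.le, hw, hσ, hint, hNm, hN0⟩
  have hGk : ∀ k : ℕ, 0 < Real.Gamma ((k : ℝ) + s) := fun k =>
    Real.Gamma_pos_of_pos (by positivity)
  have hpos : ∀ k : ℕ, 0 < N k / Real.Gamma ((k : ℝ) + s) := fun k =>
    div_pos (hrep.pos k) (hGk k)
  refine ⟨hpos, fun n z hz => ?_⟩
  rcases Nat.eq_zero_or_pos n with h0 | hn
  · subst h0
    exfalso
    unfold js at hz
    simp only [zero_add, Finset.range_one, Finset.sum_singleton, pow_zero, mul_one,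
      Nat.choose_self, Nat.cast_one, one_mul] at hz
    exact (hpos 0).ne' (Complex.ofReal_eq_zero.mp hz)
  · have hdeg : (mulc N (Lg n s)).natDegree ≤ n := by
      rw [natDegree_le_iff_coeff_eq_zero]
      intro m hm
      rw [coeff_mulc, coeff_Lg, Nat.choose_eq_zero_of_lt hm]
      simp
    have haev : aeval (-z) (mulc N (Lg n s)) = 0 := by
      rw [aeval_eq_sum_range' (Nat.lt_succ_of_le hdeg), ← hz]
      unfold js
      refine Finset.sum_congr rfl fun k _ => ?_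
      rw [coeff_mulc, coeff_Lg, Complex.real_smul, neg_pow z k]
      push_cast
      have hG := (hGk k).ne'
      have hG2 : ((Real.Gamma ((k : ℝ) + s) : ℝ) : ℂ) ≠ 0 := by
        exact_mod_cast hG
      have h11 : ((-1 : ℂ) ^ k) * ((-1 : ℂ) ^ k) = 1 := by rw [← mul_pow]; simp
      field_simp
      linear_combination ((N k : ℂ) * (n.choose k : ℂ) * z ^ k) * h11
    have h3 := transfer hn (Gg_deg n hs hθ) hdeg
      (fun y hy => (Gg_real hs hθ y hy).1) (fun ζ hζ => ?_) haev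
    · rw [Complex.neg_im] at h3
      linarith
    · have hζ0 : 0 < ζ := by
        have h4 : aeval (ζ : ℂ) (Gg n s θ) = 0 := by
          have h5 := aeval_algebraMap_apply ℂ ζ (Gg n s θ)
          rw [coe_aeval_eq_eval, hζ, map_zero] at h5
          exact h5
        have h5 := (Gg_real hs hθ _ h4).2
        simpa using h5
      have a1 := Gg_sign hs hθ h1 h2 hζ0 hζ
      have a2 := key_sign hθ hN hs h1 h2 hζ0 hζ
      by_contra h6
      push Not at h6
      have a3 := mul_pos_of_neg_of_neg a1 (neg_neg_of_pos a2)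
      have hpne : 0 < (Lg n s).eval ζ ^ 2 := by
        have := sonin_ne hs hθ h1 h2 hζ0 hζ
        positivity
      have a4 : 0 ≤ ((derivative (Gg n s θ)).eval ζ * (mulc N (Lg n s)).eval ζ) *
          (Lg n s).eval ζ ^ 2 := mul_nonneg h6 hpne.le
      nlinarith

end Pool.Agent.Lib.MP_8382de_an.W2
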