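import Pool.Agent.Lib.MP_8382de_an.W2.Defs

/-!
# W2.LagS: Laguerre's theorem for the upper half plane

`laguerre_half`: let `p` be a complex polynomial of degree at most `N`, `N ≥ 1`, without zeros in
the upper half plane. Then `N p(x) + (z - x) p'(x) ≠ 0` for `Im x > 0`, `Im z > 0`.
Proof. Suppose it is `0`. `p(x) ≠ 0`, so `x ≠ z`, and with `V = ∑_j 1/(x - r_j)` (`r_j` the zeros)
`(x - z) V = N`. Put `y = Im x > 0`. For `u` with `Im u ≥ y`:
`y ‖1/u‖² + Im (1/u) = (y - Im u)/‖u‖² ≤ 0`. By induction (`half_sum`)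
`y ‖V‖² + m Im V ≤ 0` where `m` is the number of zeros, so `y ‖V‖² + N Im V ≤ 0`. With
`V = N/(x - z)` this is `Im z ≤ 0`.

`lag_step`: apply it to `p = ∑_{k ≤ n+1} C(n+1,k) b_k X^k`, `N = n+1`:
`N p(x) + (z - x) p'(x) = N ∑_{k≤n} C(n,k) (b_k + z b_{k+1}) x^k`
(`(n+1-k) C(n+1,k) = (n+1) C(n,k)` and `(k+1) C(n+1,k+1) = (n+1) C(n,k)`).
-/

set_option autoImplicit false

namespace Pool.Agent.Lib.MP_8382de_an.W2

open Polynomial

lemma half_sum {y : ℝ} (hy : 0 < y) (T : Multiset ℂ)
    (h : ∀ v ∈ T, y * Complex.normSq v + v.im ≤ 0) :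
    y * Complex.normSq T.sum + (T.card : ℝ) * T.sum.im ≤ 0 := by
  induction T using Multiset.induction_on with
  | empty => simp
  | cons v T ih =>
    have h1 := h v (Multiset.mem_cons_self v T)
    have h2 := ih fun w hw => h w (Multiset.mem_cons_of_mem hw)
    rw [Multiset.sum_cons, Multiset.card_cons]
    rcases Nat.eq_zero_or_pos T.card with h0 | hpos
    · rw [Multiset.card_eq_zero] at h0
      subst h0
      simpa using h1
    · have hm : (1 : ℝ) ≤ (T.card : ℝ) := by exact_mod_cast hpos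
      set m : ℝ := (T.card : ℝ) with hmdef
      set V : ℂ := T.sum with hV
      rw [Complex.normSq_apply] at h1 h2 ⊢
      simp only [Complex.add_re, Complex.add_im]
      push_cast
      rw [← hmdef]
      have hm0 : 0 < m := by linarith
      have h3 : 0 ≤ y * (m * v.re - V.re) ^ 2 := by positivity
      have h4 : 0 ≤ y * (m * v.im - V.im) ^ 2 := by positivity
      have h5 : m * (m + 1) * (y * (v.re * v.re + v.im * v.im) + v.im) ≤ 0 :=
        mul_nonpos_of_nonneg_of_nonpos (by positivity) h1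
      have h6 : (m + 1) * (y * (V.re * V.re + V.im * V.im) + m * V.im) ≤ 0 :=
        mul_nonpos_of_nonneg_of_nonpos (by positivity) h2
      have h7 : m * (y * ((v.re + V.re) * (v.re + V.re) + (v.im + V.im) * (v.im + V.im))
          + (m + 1) * (v.im + V.im)) ≤ 0 := by nlinarith
      by_contra hcon
      push Not at hcon
      have := mul_pos hm0 hcon
      linarith

theorem laguerre_half (p : Polynomial ℂ) {N : ℕ} (hdeg : p.natDegree ≤ N) (hN : 0 < N)
    {x z : ℂ} (hx : 0 < x.im) (hz : 0 < z.im) (hp : ∀ y : ℂ, 0 < y.im → p.eval y ≠ 0) :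
    (N : ℂ) * p.eval x + (z - x) * (derivative p).eval x ≠ 0 := by
  intro h0
  have hpx := hp x hx
  have hN0 : (N : ℂ) ≠ 0 := by exact_mod_cast hN.ne'
  have hp0 : p ≠ 0 := by
    rintro rfl
    simp at hpx
  have hsplit : p.Splits := IsAlgClosed.splits p
  have hlog := hsplit.eval_derivative_div_eval_of_ne_zero hpx
  set T : Multiset ℂ := p.roots.map fun r => 1 / (x - r) with hT
  have hTcard : (T.card : ℝ) ≤ (N : ℝ) := by
    rw [hT, Multiset.card_map]
    exact_mod_cast (card_roots' p).trans hdeg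
  have hv : ∀ v ∈ T, x.im * Complex.normSq v + v.im ≤ 0 := by
    intro v hvT
    rw [hT, Multiset.mem_map] at hvT
    obtain ⟨r, hr, rfl⟩ := hvT
    have hr0 : p.eval r = 0 := isRoot_of_mem_roots hr
    have hrim : r.im ≤ 0 := by
      by_contra hcon
      push Not at hcon
      exact hp r hcon hr0
    have hne : x - r ≠ 0 := by
      intro h
      rw [sub_eq_zero] at h
      rw [h] at hx
      linarith
    have hpos : 0 < Complex.normSq (x - r) := Complex.normSq_pos.mpr hne
    rw [one_div, Complex.normSq_inv, Complex.inv_im, Complex.sub_im]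
    have : x.im * (Complex.normSq (x - r))⁻¹ + -(x.im - r.im) / Complex.normSq (x - r)
        = r.im / Complex.normSq (x - r) := by
      field_simp
      ring
    rw [this]
    exact div_nonpos_of_nonpos_of_nonneg hrim hpos.le
  have hsum := half_sum hx T hv
  have hVim : T.sum.im ≤ 0 ∨ T.sum = 0 := by
    rcases Nat.eq_zero_or_pos T.card with hc | hc
    · right
      rw [Multiset.card_eq_zero] at hc
      rw [hc]
      simp
    · left
      have hc' : (0 : ℝ) < (T.card : ℝ) := by exact_mod_cast hc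
      by_contra hcon
      push Not at hcon
      have h1 := mul_pos hc' hcon
      have h2 : 0 ≤ x.im * Complex.normSq T.sum := mul_nonneg hx.le (Complex.normSq_nonneg _)
      linarith
  have hrel : (x - z) * T.sum = N := by
    rw [← hlog]
    field_simp
    linear_combination -h0
  have hVne : T.sum ≠ 0 := by
    intro h
    rw [h, mul_zero] at hrel
    exact hN0 hrel.symm
  have hVim' : T.sum.im ≤ 0 := hVim.resolve_right hVne
  have hfin : x.im * Complex.normSq T.sum + (N : ℝ) * T.sum.im ≤ 0 := by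
    have := mul_le_mul_of_nonneg_right hTcard (neg_nonneg.mpr hVim')
    linarith
  have hxz : x - z ≠ 0 := by
    intro h
    rw [h, zero_mul] at hrel
    exact hN0 hrel.symm
  have hV : T.sum = (N : ℂ) * (x - z)⁻¹ := by
    rw [← hrel]
    field_simp
  have hpos : 0 < Complex.normSq (x - z) := Complex.normSq_pos.mpr hxz
  have hNr : (0 : ℝ) < (N : ℝ) := by exact_mod_cast hN
  rw [hV, Complex.normSq_mul, Complex.normSq_inv] at hfin
  have him : ((N : ℂ) * (x - z)⁻¹).im = (N : ℝ) * (-(x.im - z.im) / Complex.normSq (x - z)) := by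
    have : ((N : ℕ) : ℂ) = ((N : ℝ) : ℂ) := by push_cast; rfl
    rw [this, Complex.im_ofReal_mul, Complex.inv_im, Complex.sub_im]
  have hns : Complex.normSq (N : ℂ) = (N : ℝ) * (N : ℝ) := by
    have : ((N : ℕ) : ℂ) = ((N : ℝ) : ℂ) := by push_cast; rfl
    rw [this, Complex.normSq_ofReal]
  rw [him, hns] at hfin
  have heq : x.im * ((N : ℝ) * (N : ℝ) * (Complex.normSq (x - z))⁻¹)
      + (N : ℝ) * ((N : ℝ) * (-(x.im - z.im) / Complex.normSq (x - z)))
      = (N : ℝ) ^ 2 * z.im / Complex.normSq (x - z) := by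
    field_simp
    ring
  rw [heq] at hfin
  have : 0 < (N : ℝ) ^ 2 * z.im / Complex.normSq (x - z) := by positivity
  linarith

theorem lag_step {n : ℕ} {b : ℕ → ℂ} {z : ℂ} (hz : 0 < z.im)
    (h : ∀ x : ℂ, 0 < x.im →
      ∑ k ∈ Finset.range (n + 2), (((n + 1).choose k : ℕ) : ℂ) * b k * x ^ k ≠ 0)
    {x : ℂ} (hx : 0 < x.im) :
    ∑ k ∈ Finset.range (n + 1), ((n.choose k : ℕ) : ℂ) * (b k + z * b (k + 1)) * x ^ k ≠ 0 := by
  set p : Polynomial ℂ := ∑ k ∈ Finset.range (n + 2),
    monomial k ((((n + 1).choose k : ℕ) : ℂ) * b k) with hpdef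
  have hpe : ∀ y : ℂ, p.eval y
      = ∑ k ∈ Finset.range (n + 2), (((n + 1).choose k : ℕ) : ℂ) * b k * y ^ k := by
    intro y
    rw [hpdef, eval_finsetSum]
    exact Finset.sum_congr rfl fun k _ => eval_monomial
  have hdeg : p.natDegree ≤ n + 1 := by
    rw [hpdef]
    refine natDegree_sum_le_of_forall_le _ _ fun k hk => ?_
    refine (natDegree_monomial_le _).trans ?_
    rw [Finset.mem_range] at hk
    omega
  have hmain := laguerre_half p hdeg (Nat.succ_pos n) hx hz (fun y hy => by
    rw [hpe]; exact h y hy)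
  have hder : (derivative p).eval x
      = ((n : ℂ) + 1) * ∑ k ∈ Finset.range (n + 1), ((n.choose k : ℕ) : ℂ) * b (k + 1) * x ^ k := by
    rw [hpdef, derivative_sum, eval_finsetSum, Finset.sum_range_succ', Finset.mul_sum]
    simp only [derivative_monomial, eval_monomial]
    simp only [Nat.cast_zero, mul_zero, zero_mul, add_zero, Nat.add_sub_cancel]
    refine Finset.sum_congr rfl fun k _ => ?_
    have := Nat.add_one_mul_choose_eq n k
    have hc : ((n : ℂ) + 1) * (n.choose k : ℂ) = ((n + 1).choose (k + 1) : ℂ) * ((k : ℂ) + 1) := by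
      exact_mod_cast this
    push_cast
    linear_combination (-(b (k + 1) * x ^ k)) * hc
  have hval : ((n : ℂ) + 1) * p.eval x - x * (derivative p).eval x
      = ((n : ℂ) + 1) * ∑ k ∈ Finset.range (n + 1), ((n.choose k : ℕ) : ℂ) * b k * x ^ k := by
    have hxd : x * (derivative p).eval x = ∑ k ∈ Finset.range (n + 2),
        (k : ℂ) * ((((n + 1).choose k : ℕ) : ℂ) * b k * x ^ k) := by
      rw [hpdef, derivative_sum, eval_finsetSum, Finset.mul_sum]
      refine Finset.sum_congr rfl fun k _ => ?_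
      rw [derivative_monomial, eval_monomial]
      cases k with
      | zero => simp
      | succ k =>
        rw [Nat.add_sub_cancel, pow_succ]
        ring
    rw [hxd, hpe, Finset.mul_sum, ← Finset.sum_sub_distrib, Finset.sum_range_succ, Finset.mul_sum]
    have hlast : ((n : ℂ) + 1) * ((((n + 1).choose (n + 1) : ℕ) : ℂ) * b (n + 1) * x ^ (n + 1))
        - ((n + 1 : ℕ) : ℂ) * ((((n + 1).choose (n + 1) : ℕ) : ℂ) * b (n + 1) * x ^ (n + 1)) = 0 := by
      push_cast
      ring
    rw [hlast, add_zero]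
    refine Finset.sum_congr rfl fun k hk => ?_
    have hk' : k ≤ n := by rw [Finset.mem_range] at hk; omega
    have := Nat.choose_mul_succ_eq n k
    have hc : (n.choose k : ℂ) * ((n : ℂ) + 1) = ((n + 1).choose k : ℂ) * ((n : ℂ) + 1 - (k : ℂ)) := by
      have h1 : ((n.choose k * (n + 1) : ℕ) : ℂ) = (((n + 1).choose k * (n + 1 - k) : ℕ) : ℂ) := by
        exact_mod_cast this
      rw [Nat.cast_mul, Nat.cast_mul, Nat.cast_sub (by omega)] at h1
      push_cast at h1
      exact h1
    linear_combination (-(b k * x ^ k)) * hc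
  intro hzero
  apply hmain
  have hexp : ∑ k ∈ Finset.range (n + 1), ((n.choose k : ℕ) : ℂ) * (b k + z * b (k + 1)) * x ^ k
      = ∑ k ∈ Finset.range (n + 1), ((n.choose k : ℕ) : ℂ) * b k * x ^ k
        + z * ∑ k ∈ Finset.range (n + 1), ((n.choose k : ℕ) : ℂ) * b (k + 1) * x ^ k := by
    rw [Finset.mul_sum, ← Finset.sum_add_distrib]
    exact Finset.sum_congr rfl fun k _ => by ring
  rw [hexp] at hzero
  push_cast
  linear_combination hval + z * hder + ((n : ℂ) + 1) * hzero

end Pool.Agent.Lib.MP_8382de_an.W2
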