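import Pool.Agent.Lib.MP_8382de_an.W2.Defs

/-!
# W2.Lgr: Laguerre's differential equation

`Lg_ode`: `X p'' + (s - X) p' + n p = 0`. Compare coefficients of `X^k`:
`(k+1) k p_{k+1} + s (k+1) p_{k+1} - k p_k + n p_k = 0`, i.e. `(k+1)(k+s) p_{k+1} = -(n-k) p_k`, which
follows from `Γ(k+1+s) = (k+s) Γ(k+s)` (`Real.Gamma_add_one`, `k + s > 0`) and
`(k+1) C(n,k+1) = (n-k) C(n,k)` (`Nat.choose_succ_right_eq`; cast with care for `k > n`, both sides
are `0`).

`Gg_ode`: `X g' = (1 + w - s + X) g - ((n+w) X + w (1+w-s)) p` for `g = X p' + w p`: derive `g`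
and use `Lg_ode`.

`Lg_zero`, `Gg_zero`: values at `0`. `Gg_deg`: the degree is `n` (coefficient
`(n + w) (-1)^n / Γ(n+s) ≠ 0`, and `coeff_Gg`, `coeff_Lg` vanish above `n`).
-/

set_option autoImplicit false

namespace Pool.Agent.Lib.MP_8382de_an.W2

open Polynomial

private lemma Lgr_rec (n : ℕ) {s : ℝ} (hs : 0 < s) (k : ℕ) :
    ((k : ℝ) + 1) * ((k : ℝ) + s) * (Lg n s).coeff (k + 1) =
      -((n : ℝ) - k) * (Lg n s).coeff k := by
  rw [coeff_Lg, coeff_Lg]
  have hks : 0 < (k : ℝ) + s := by positivity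
  have hG : Real.Gamma (((k + 1 : ℕ) : ℝ) + s) = ((k : ℝ) + s) * Real.Gamma ((k : ℝ) + s) := by
    rw [← Real.Gamma_add_one hks.ne']
    congr 1
    push_cast
    ring
  have hGp : Real.Gamma ((k : ℝ) + s) ≠ 0 := (Real.Gamma_pos_of_pos hks).ne'
  have hch : ((k : ℝ) + 1) * (n.choose (k + 1) : ℝ) = ((n : ℝ) - k) * (n.choose k : ℝ) := by
    rcases Nat.lt_or_ge n k with h | h
    · rw [Nat.choose_eq_zero_of_lt h, Nat.choose_eq_zero_of_lt (by omega)]
      simp
    · have := Nat.choose_succ_right_eq n k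
      have h2 : ((n.choose (k + 1) : ℝ)) * ((k : ℝ) + 1) = (n.choose k : ℝ) * ((n : ℝ) - k) := by
        rw [← Nat.cast_sub h]
        exact_mod_cast this
      linarith
  rw [hG, pow_succ]
  field_simp
  linear_combination (-1 : ℝ) * hch

theorem Lg_ode (n : ℕ) {s : ℝ} (hs : 0 < s) :
    X * derivative (derivative (Lg n s)) + (C s - X) * derivative (Lg n s)
      + C (n : ℝ) * Lg n s = 0 := by
  ext k
  have key := Lgr_rec n hs k
  rw [coeff_add, coeff_add, coeff_C_mul, sub_mul, coeff_sub, coeff_C_mul, coeff_derivative,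
    coeff_zero]
  rcases k with _ | k
  · rw [mul_comm X, coeff_mul_X_zero, mul_comm X, coeff_mul_X_zero]
    push_cast at key ⊢
    linear_combination key
  · rw [coeff_X_mul, coeff_X_mul, coeff_derivative, coeff_derivative, coeff_derivative]
    push_cast at key ⊢
    linear_combination key

theorem Gg_ode (n : ℕ) {s : ℝ} (hs : 0 < s) (w : ℝ) :
    X * derivative (Gg n s w) = (C (1 + w - s) + X) * Gg n s w
      - (C ((n : ℝ) + w) * X + C (w * (1 + w - s))) * Lg n s := by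
  have h := Lg_ode n hs
  unfold Gg
  simp only [derivative_add, derivative_mul, derivative_X, derivative_C, one_mul, zero_mul,
    zero_add]
  have e1 : (C (1 + w - s) : Polynomial ℝ) = 1 + C w - C s := by
    rw [C_sub, C_add, C_1]
  have e2 : (C (w * (1 + w - s)) : Polynomial ℝ) = C w * (1 + C w - C s) := by
    rw [C_mul, e1]
  have e3 : (C ((n : ℝ) + w) : Polynomial ℝ) = C (n : ℝ) + C w := C_add
  rw [e1, e2, e3]
  linear_combination X * h

theorem Lg_zero (n : ℕ) (s : ℝ) : (Lg n s).eval 0 = 1 / Real.Gamma s := by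
  rw [← coeff_zero_eq_eval_zero, coeff_Lg]
  simp

theorem Gg_zero (n : ℕ) (s w : ℝ) : (Gg n s w).eval 0 = w / Real.Gamma s := by
  rw [← coeff_zero_eq_eval_zero, coeff_Gg, coeff_Lg]
  simp [div_eq_mul_inv]

theorem Gg_deg (n : ℕ) {s w : ℝ} (hs : 0 < s) (hw : 0 < w) : (Gg n s w).natDegree = n := by
  refine natDegree_eq_of_le_of_coeff_ne_zero ?_ ?_
  · rw [natDegree_le_iff_coeff_eq_zero]
    intro N hN
    rw [coeff_Gg, coeff_Lg, Nat.choose_eq_zero_of_lt hN]
    simp
  · rw [coeff_Gg, coeff_Lg, Nat.choose_self]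
    have h1 : (0 : ℝ) < (n : ℝ) + w := by positivity
    have h2 : (0 : ℝ) < (n : ℝ) + s := by positivity
    refine mul_ne_zero h1.ne' (div_ne_zero (mul_ne_zero ?_ ?_) (Real.Gamma_pos_of_pos h2).ne')
    · simp
    · exact pow_ne_zero _ (by norm_num)

end Pool.Agent.Lib.MP_8382de_an.W2
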