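import Pool.Agent.Lib.MP_8382de_an.W2.Lgr

/-!
# W2.Son: Sonin's function

`p = Lg n s`, `g = Gg n s w`, `R = n + w`, `E = w (1 + w - s) ≥ 0`,
`Psi x = x^(2w) (p(x)² + g(x)²/(R x + E))`, `x > 0`. With `x p' = g - w p` and `Gg_ode`
(`x g' = (1+w-s+x) g - (R x + E) p`) one gets for `D = R x + E`
`x^(1-2w) Psi'(x) = (g²/D) (2w + 2(1+w-s+x) - R x/D) ≥ (g²/D) (4w + 1 - 2s + 2x) ≥ 0`,
strictly positive if `g(x) ≠ 0` (`4w + 1 - 2s ≥ 0`, `x > 0`).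

`Psi_lt`: strictly increasing on `(0,∞)`: it is monotone (`monotoneOn_of_deriv_nonneg`); if
`Psi x = Psi y` for some `x < y` then `Psi` is constant on `[x,y]`, so the derivative vanishes on
`(x,y)`, so `g = 0` on `(x,y)`, so `g = 0` (infinitely many zeros), but `g(0) = w/Γ(s) ≠ 0`
(`Gg_zero`).

`sonin` (weak and strict): if `g(ζ) = 0` then `Psi ζ = (ζ^w p(ζ))²` and
`((uζ)^w p(uζ))² ≤ Psi (uζ) ≤ Psi ζ` (strict for `u < 1`).
`sonin_ne`: `p(ζ)² ζ^(2w) = Psi ζ > Psi (ζ/2) ≥ 0`.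
`sonin_z`: if `p(ζ) = 0` then `Psi ζ = ζ^(2w) g(ζ)²/(Rζ+E)` and for `0 < v ≤ 1`
`(vζ)^(2w) g(vζ)²/(Rvζ+E) ≤ Psi (vζ) ≤ Psi ζ`, so `((vζ)^w g(vζ))² ≤ (ζ^w g(ζ))² (Rvζ+E)/(Rζ+E)
≤ (ζ^w g(ζ))²`.
-/

set_option autoImplicit false

namespace Pool.Agent.Lib.MP_8382de_an.W2

open Polynomial

/-- Sonin's function -/
noncomputable def Psi (n : ℕ) (s w x : ℝ) : ℝ :=
  x ^ (2 * w) * ((Lg n s).eval x ^ 2 +
    (Gg n s w).eval x ^ 2 / (((n : ℝ) + w) * x + w * (1 + w - s)))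

lemma Son_D {n : ℕ} {s w : ℝ} (hw : 0 < w) (h2 : s ≤ 1 + w) {x : ℝ} (hx : 0 < x) :
    0 < ((n : ℝ) + w) * x + w * (1 + w - s) := by
  have h3 : 0 < ((n : ℝ) + w) * x := mul_pos (by positivity) hx
  have h4 : 0 ≤ w * (1 + w - s) := mul_nonneg hw.le (by linarith)
  linarith

lemma Son_p (n : ℕ) (s w x : ℝ) :
    x * (derivative (Lg n s)).eval x = (Gg n s w).eval x - w * (Lg n s).eval x := by
  unfold Gg
  simp

lemma Son_g (n : ℕ) {s : ℝ} (hs : 0 < s) (w x : ℝ) :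
    x * (derivative (Gg n s w)).eval x = (1 + w - s + x) * (Gg n s w).eval x
      - (((n : ℝ) + w) * x + w * (1 + w - s)) * (Lg n s).eval x := by
  have h := congrArg (eval x) (Gg_ode n hs w)
  simpa using h

/-- the derivative of Sonin's function -/
lemma Son_deriv {n : ℕ} {s w : ℝ} (hs : 0 < s) (hw : 0 < w) (h2 : s ≤ 1 + w) {x : ℝ}
    (hx : 0 < x) :
    HasDerivAt (Psi n s w) (x ^ (2 * w) * ((Gg n s w).eval x ^ 2 /
      (((n : ℝ) + w) * x + w * (1 + w - s))) * (2 * w + 2 * (1 + w - s + x) -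
        ((n : ℝ) + w) * x / (((n : ℝ) + w) * x + w * (1 + w - s))) / x) x := by
  have hD := Son_D (n := n) hw h2 hx
  have e1 : HasDerivAt (fun y : ℝ => y ^ (2 * w)) (2 * w * x ^ (2 * w - 1)) x :=
    Real.hasDerivAt_rpow_const (Or.inl hx.ne')
  have e2 : HasDerivAt (fun y => (Lg n s).eval y) ((derivative (Lg n s)).eval x) x :=
    (Lg n s).hasDerivAt x
  have e3 : HasDerivAt (fun y => (Gg n s w).eval y) ((derivative (Gg n s w)).eval x) x :=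
    (Gg n s w).hasDerivAt x
  have e4 : HasDerivAt (fun y : ℝ => ((n : ℝ) + w) * y + w * (1 + w - s)) ((n : ℝ) + w) x := by
    simpa using ((hasDerivAt_id x).const_mul ((n : ℝ) + w)).add_const (w * (1 + w - s))
  have e5 := e1.mul ((e2.pow 2).add ((e3.pow 2).div e4 hD.ne'))
  have e6 : x ^ (2 * w - 1) = x ^ (2 * w) / x := by
    rw [Real.rpow_sub_one hx.ne']
  have hp := Son_p n s w x
  have hg := Son_g n hs w x
  have hp' : (derivative (Lg n s)).eval x = ((Gg n s w).eval x - w * (Lg n s).eval x) / x := by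
    rw [← hp]; field_simp
  have hg' : (derivative (Gg n s w)).eval x = ((1 + w - s + x) * (Gg n s w).eval x
      - (((n : ℝ) + w) * x + w * (1 + w - s)) * (Lg n s).eval x) / x := by
    rw [← hg]; field_simp
  refine e5.congr_deriv ?_
  rw [e6, hp', hg']
  simp only [Pi.add_apply, Pi.pow_apply, Pi.div_apply, Nat.cast_ofNat, Nat.add_one_sub_one,
    pow_one]
  generalize hDD : ((n : ℝ) + w) * x + w * (1 + w - s) = D at *
  field_simp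
  ring

lemma Son_nonneg {n : ℕ} {s w : ℝ} (hw : 0 < w) (h2 : s ≤ 1 + w) {x : ℝ} (hx : 0 < x) :
    0 ≤ Psi n s w x := by
  unfold Psi
  have hD := Son_D (n := n) hw h2 hx
  positivity

lemma Son_pos {n : ℕ} {s w : ℝ} (hw : 0 < w) (h1 : s ≤ 1 / 2 + 2 * w)
    (h2 : s ≤ 1 + w) {x : ℝ} (hx : 0 < x) :
    0 < 2 * w + 2 * (1 + w - s + x) -
        ((n : ℝ) + w) * x / (((n : ℝ) + w) * x + w * (1 + w - s)) := by
  have hD := Son_D (n := n) hw h2 hx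
  have h4 : 0 ≤ w * (1 + w - s) := mul_nonneg hw.le (by linarith)
  have h5 : ((n : ℝ) + w) * x / (((n : ℝ) + w) * x + w * (1 + w - s)) ≤ 1 := by
    rw [div_le_one hD]; linarith
  linarith

theorem Psi_lt {n : ℕ} {s w : ℝ} (hs : 0 < s) (hw : 0 < w) (h1 : s ≤ 1 / 2 + 2 * w)
    (h2 : s ≤ 1 + w) {x y : ℝ} (hx : 0 < x) (hxy : x < y) : Psi n s w x < Psi n s w y := by
  have hmono : MonotoneOn (Psi n s w) (Set.Ioi 0) := by
    refine monotoneOn_of_deriv_nonneg (convex_Ioi 0)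
      (fun z hz => (Son_deriv hs hw h2 hz).continuousAt.continuousWithinAt) ?_ ?_
    · rw [interior_Ioi]
      exact fun z hz => (Son_deriv hs hw h2 hz).differentiableAt.differentiableWithinAt
    · rw [interior_Ioi]
      intro z hz
      have hz0 : 0 < z := hz
      rw [(Son_deriv hs hw h2 hz0).deriv]
      have hD := Son_D (n := n) hw h2 hz0
      have hP := Son_pos (n := n) hw h1 h2 hz0
      positivity
  have hle := hmono (show x ∈ Set.Ioi (0 : ℝ) from hx)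
    (show y ∈ Set.Ioi (0 : ℝ) from hx.trans hxy) hxy.le
  refine lt_of_le_of_ne hle fun heq => ?_
  -- constant on `[x, y]`
  have hconst : ∀ z ∈ Set.Ioo x y, Psi n s w z = Psi n s w x := by
    intro z hz
    have hz0 : 0 < z := hx.trans hz.1
    have a1 := hmono (show x ∈ Set.Ioi (0 : ℝ) from hx) (show z ∈ Set.Ioi (0 : ℝ) from hz0) hz.1.le
    have a2 := hmono (show z ∈ Set.Ioi (0 : ℝ) from hz0)
      (show y ∈ Set.Ioi (0 : ℝ) from hx.trans hxy) hz.2.le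
    linarith
  have hzero : ∀ z ∈ Set.Ioo x y, (Gg n s w).eval z = 0 := by
    intro z hz
    have hz0 : 0 < z := hx.trans hz.1
    have b1 : deriv (Psi n s w) z = 0 := by
      have : Psi n s w =ᶠ[nhds z] fun _ => Psi n s w x := by
        filter_upwards [Ioo_mem_nhds hz.1 hz.2] with t ht using hconst t ht
      rw [this.deriv_eq]
      simp
    rw [(Son_deriv hs hw h2 hz0).deriv] at b1
    have hD := Son_D (n := n) hw h2 hz0
    have hP := Son_pos (n := n) hw h1 h2 hz0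
    have hzp : (0 : ℝ) < z ^ (2 * w) := Real.rpow_pos_of_pos hz0 _
    by_contra hne
    have : 0 < (Gg n s w).eval z ^ 2 := by positivity
    have hh : 0 < z ^ (2 * w) * ((Gg n s w).eval z ^ 2 /
      (((n : ℝ) + w) * z + w * (1 + w - s))) * (2 * w + 2 * (1 + w - s + z) -
        ((n : ℝ) + w) * z / (((n : ℝ) + w) * z + w * (1 + w - s))) / z := by
      positivity
    exact hh.ne' b1
  have hg0 : Gg n s w = 0 := by
    refine Polynomial.eq_zero_of_infinite_isRoot _ ?_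
    exact (Set.Ioo_infinite hxy).mono fun z hz => hzero z hz
  have h3 := Gg_zero n s w
  rw [hg0, eval_zero] at h3
  have : 0 < w / Real.Gamma s := div_pos hw (Real.Gamma_pos_of_pos hs)
  linarith

lemma Son_rpow {x w : ℝ} (hx : 0 < x) : x ^ (2 * w) = (x ^ w) ^ 2 := by
  rw [mul_comm, Real.rpow_mul hx.le]
  norm_num

lemma Son_Psi_ge {n : ℕ} {s w : ℝ} (hw : 0 < w) (h2 : s ≤ 1 + w) {x : ℝ} (hx : 0 < x) :
    (x ^ w * (Lg n s).eval x) ^ 2 ≤ Psi n s w x := by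
  unfold Psi
  have hD := Son_D (n := n) hw h2 hx
  rw [Son_rpow hx, mul_pow]
  have : 0 ≤ (Gg n s w).eval x ^ 2 / (((n : ℝ) + w) * x + w * (1 + w - s)) := by positivity
  have h3 : 0 ≤ (x ^ w) ^ 2 := by positivity
  nlinarith

lemma Son_Psi_eq {n : ℕ} {s w : ℝ} {ζ : ℝ} (hζ : 0 < ζ)
    (hg : (Gg n s w).eval ζ = 0) : Psi n s w ζ = (ζ ^ w * (Lg n s).eval ζ) ^ 2 := by
  unfold Psi
  rw [hg, Son_rpow hζ, mul_pow]
  simp

theorem sonin_lt {n : ℕ} {s w : ℝ} (hs : 0 < s) (hw : 0 < w) (h1 : s ≤ 1 / 2 + 2 * w)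
    (h2 : s ≤ 1 + w) {ζ : ℝ} (hζ : 0 < ζ) (hg : (Gg n s w).eval ζ = 0) {u : ℝ} (hu : 0 < u)
    (hu1 : u < 1) :
    |u ^ w * (Lg n s).eval (u * ζ)| < |(Lg n s).eval ζ| := by
  have huz : 0 < u * ζ := mul_pos hu hζ
  have a1 := Son_Psi_ge (n := n) hw h2 huz
  have a2 := Son_Psi_eq (n := n) hζ hg
  have a3 := Psi_lt (n := n) hs hw h1 h2 huz (show u * ζ < ζ by nlinarith)
  have a4 : ((u * ζ) ^ w * (Lg n s).eval (u * ζ)) ^ 2 < (ζ ^ w * (Lg n s).eval ζ) ^ 2 := by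
    linarith
  rw [Real.mul_rpow hu.le hζ.le] at a4
  have hzp : (0 : ℝ) < ζ ^ w := Real.rpow_pos_of_pos hζ _
  have a5 : (u ^ w * (Lg n s).eval (u * ζ)) ^ 2 < (Lg n s).eval ζ ^ 2 := by
    have : (ζ ^ w) ^ 2 * (u ^ w * (Lg n s).eval (u * ζ)) ^ 2 <
        (ζ ^ w) ^ 2 * (Lg n s).eval ζ ^ 2 := by
      calc (ζ ^ w) ^ 2 * (u ^ w * (Lg n s).eval (u * ζ)) ^ 2
          = (u ^ w * ζ ^ w * (Lg n s).eval (u * ζ)) ^ 2 := by ring
        _ < (ζ ^ w * (Lg n s).eval ζ) ^ 2 := a4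
        _ = (ζ ^ w) ^ 2 * (Lg n s).eval ζ ^ 2 := by ring
    exact lt_of_mul_lt_mul_left this (by positivity)
  exact sq_lt_sq.mp a5

theorem sonin {n : ℕ} {s w : ℝ} (hs : 0 < s) (hw : 0 < w) (h1 : s ≤ 1 / 2 + 2 * w)
    (h2 : s ≤ 1 + w) {ζ : ℝ} (hζ : 0 < ζ) (hg : (Gg n s w).eval ζ = 0) {u : ℝ} (hu : 0 < u)
    (hu1 : u ≤ 1) :
    |u ^ w * (Lg n s).eval (u * ζ)| ≤ |(Lg n s).eval ζ| := by
  rcases hu1.lt_or_eq with h | h
  · exact (sonin_lt hs hw h1 h2 hζ hg hu h).le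
  · subst h; simp

theorem sonin_ne {n : ℕ} {s w : ℝ} (hs : 0 < s) (hw : 0 < w) (h1 : s ≤ 1 / 2 + 2 * w)
    (h2 : s ≤ 1 + w) {ζ : ℝ} (hζ : 0 < ζ) (hg : (Gg n s w).eval ζ = 0) :
    (Lg n s).eval ζ ≠ 0 := by
  intro h0
  have h := sonin_lt hs hw h1 h2 hζ hg (show (0 : ℝ) < 1 / 2 by norm_num) (by norm_num)
  rw [h0, abs_zero] at h
  exact absurd h (not_lt.mpr (abs_nonneg _))

theorem sonin_z {n : ℕ} {s w : ℝ} (hs : 0 < s) (hw : 0 < w) (h1 : s ≤ 1 / 2 + 2 * w)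
    (h2 : s ≤ 1 + w) {ζ : ℝ} (hζ : 0 < ζ) (hp : (Lg n s).eval ζ = 0) {v : ℝ} (hv : 0 < v)
    (hv1 : v ≤ 1) :
    |v ^ w * (Gg n s w).eval (v * ζ)| ≤ |(Gg n s w).eval ζ| := by
  rcases hv1.lt_or_eq with h | h
  swap
  · subst h; simp
  have hvz : 0 < v * ζ := mul_pos hv hζ
  have a3 := Psi_lt (n := n) hs hw h1 h2 hvz (show v * ζ < ζ by nlinarith)
  have hD1 := Son_D (n := n) hw h2 hvz
  have hD2 := Son_D (n := n) hw h2 hζ
  have hzp : (0 : ℝ) < ζ ^ w := Real.rpow_pos_of_pos hζ _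
  have b1 : ((v * ζ) ^ w) ^ 2 * ((Gg n s w).eval (v * ζ) ^ 2 /
      (((n : ℝ) + w) * (v * ζ) + w * (1 + w - s))) ≤ Psi n s w (v * ζ) := by
    unfold Psi
    rw [Son_rpow hvz]
    have : 0 ≤ (Lg n s).eval (v * ζ) ^ 2 := by positivity
    have h3 : 0 ≤ ((v * ζ) ^ w) ^ 2 := by positivity
    nlinarith
  have b2 : Psi n s w ζ = (ζ ^ w) ^ 2 * ((Gg n s w).eval ζ ^ 2 /
      (((n : ℝ) + w) * ζ + w * (1 + w - s))) := by
    unfold Psi
    rw [Son_rpow hζ, hp]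
    ring
  have b3 : ((n : ℝ) + w) * (v * ζ) + w * (1 + w - s) ≤
      ((n : ℝ) + w) * ζ + w * (1 + w - s) := by
    have : 0 < (n : ℝ) + w := by positivity
    have h5 : v * ζ ≤ ζ := by nlinarith
    nlinarith
  rw [Real.mul_rpow hv.le hζ.le] at b1
  generalize ((n : ℝ) + w) * (v * ζ) + w * (1 + w - s) = D1 at *
  generalize ((n : ℝ) + w) * ζ + w * (1 + w - s) = D2 at *
  have b4 : (v ^ w * ζ ^ w) ^ 2 * ((Gg n s w).eval (v * ζ) ^ 2 / D2) ≤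
      (v ^ w * ζ ^ w) ^ 2 * ((Gg n s w).eval (v * ζ) ^ 2 / D1) := by
    gcongr
  have b5 : (v ^ w * ζ ^ w) ^ 2 * ((Gg n s w).eval (v * ζ) ^ 2 / D2) ≤
      (ζ ^ w) ^ 2 * ((Gg n s w).eval ζ ^ 2 / D2) := by linarith
  have b6 : (v ^ w * (Gg n s w).eval (v * ζ)) ^ 2 ≤ (Gg n s w).eval ζ ^ 2 := by
    have c1 : (ζ ^ w) ^ 2 / D2 * (v ^ w * (Gg n s w).eval (v * ζ)) ^ 2 ≤
        (ζ ^ w) ^ 2 / D2 * (Gg n s w).eval ζ ^ 2 := by
      calc (ζ ^ w) ^ 2 / D2 * (v ^ w * (Gg n s w).eval (v * ζ)) ^ 2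
          = (v ^ w * ζ ^ w) ^ 2 * ((Gg n s w).eval (v * ζ) ^ 2 / D2) := by ring
        _ ≤ (ζ ^ w) ^ 2 * ((Gg n s w).eval ζ ^ 2 / D2) := b5
        _ = (ζ ^ w) ^ 2 / D2 * (Gg n s w).eval ζ ^ 2 := by ring
    exact le_of_mul_le_mul_left c1 (by positivity)
  exact sq_le_sq.mp b6

end Pool.Agent.Lib.MP_8382de_an.W2
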