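import Pool.Agent.Lib.MP_8382de_an.W2.Comp

/-!
# W2.TMul: multiplier sequences act on `Neg` polynomials and on the class `T`

`Neg_mulc`: `Neg p`, `MM M` give `Neg (mulc M p)`. Constant term `M 0 * p_0 > 0`. `p = C p_0 *
∏_{x ∈ S} (1 + x X)`, `x > 0` (`Neg.fac`). Let `Im z > 0`. `mulc M p` at `z` is
`∑_k M_k p_k z^k = p_0 ∑_k M_k coeff_k(∏ (1 + x z X))` (the coefficients of `P(zX)`,
`comp_C_mul_X_coeff`/`coeff_map`), and this is nonzero by `comp_ms` with the multiset `S.map (x ↦ x z)`
and `b = M`; the hypothesis of `comp_ms` is `js (card S) M x ≠ 0` for `Im x > 0`, which is the second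
part of `MM M`. The range of summation: `natDegree p ≤ card S`, coefficients vanish above
(`Finset.sum_subset`, or use `aeval_eq_sum_range'`). `Im z < 0`: conjugate (real coefficients).
So all zeros are real; a real zero `z ≥ 0` is impossible: all coefficients are `≥ 0`
(`Neg.coeff_nonneg`) and the constant term is `> 0`.

`T_mul`: apply it to the approximating polynomials, `coeff_mulc`.
-/

set_option autoImplicit false

namespace Pool.Agent.Lib.MP_8382de_an.W2

open Polynomial ALG

theorem tm_deg (S : Multiset ℝ) :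
    ((S.map (fun x => (1 + C x * X : Polynomial ℝ))).prod).natDegree ≤ Multiset.card S := by
  induction S using Multiset.induction_on with
  | empty => simp
  | cons a S ih =>
    rw [Multiset.map_cons, Multiset.prod_cons, Multiset.card_cons]
    refine natDegree_mul_le.trans ?_
    have h1 : (1 + C a * X : Polynomial ℝ).natDegree ≤ 1 := by
      refine (natDegree_add_le _ _).trans ?_
      rw [natDegree_one]
      exact max_le (by norm_num) ((natDegree_C_mul_le a X).trans natDegree_X_le)
    omega

theorem tm_prod (S : Multiset ℝ) (z : ℂ) :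
    ((S.map (fun x : ℝ => (x : ℂ) * z)).map (fun c => (1 + C c * X : Polynomial ℂ))).prod =
      (((S.map (fun x => (1 + C x * X : Polynomial ℝ))).prod).map (algebraMap ℝ ℂ)).comp
        (C z * X) := by
  induction S using Multiset.induction_on with
  | empty => simp
  | cons a S ih =>
    rw [Multiset.map_cons, Multiset.map_cons, Multiset.prod_cons, ih, Multiset.map_cons,
      Multiset.prod_cons, Polynomial.map_mul, mul_comp]
    congr 1
    simp only [Polynomial.map_add, Polynomial.map_one, Polynomial.map_mul, map_C, map_X, add_comp,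
      one_comp, mul_comp, C_comp, X_comp, Complex.coe_algebraMap, C_mul]
    ring

theorem tm_coeff (S : Multiset ℝ) (z : ℂ) (k : ℕ) :
    ((S.map (fun x : ℝ => (x : ℂ) * z)).map (fun c => (1 + C c * X : Polynomial ℂ))).prod.coeff k =
      (((S.map (fun x => (1 + C x * X : Polynomial ℝ))).prod.coeff k : ℝ) : ℂ) * z ^ k := by
  rw [tm_prod, comp_C_mul_X_coeff, coeff_map]
  rfl

theorem tm_upper {p : Polynomial ℝ} (hp : Neg p) {M : ℕ → ℝ} (hM : MM M) {z : ℂ}
    (hz : 0 < z.im) : aeval z (mulc M p) ≠ 0 := by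
  obtain ⟨S, hS, hpS⟩ := hp.fac
  set P : Polynomial ℝ := (S.map (fun x => (1 + C x * X : Polynomial ℝ))).prod with hP
  have hcard : (S.map (fun x : ℝ => (x : ℂ) * z)).card = S.card := Multiset.card_map _ _
  have h1 := comp_ms (S.map (fun x : ℝ => (x : ℂ) * z)) (fun k => ((M k : ℝ) : ℂ))
    (by
      intro c hc
      rw [Multiset.mem_map] at hc
      obtain ⟨x, hx, rfl⟩ := hc
      rw [Complex.im_ofReal_mul]
      exact mul_pos (hS x hx) hz)
    (by
      intro x hx hx0
      have h2 := hM.2 _ x hx0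
      linarith)
  rw [hcard] at h1
  simp only [tm_coeff] at h1
  have hc : ∀ k, p.coeff k = p.coeff 0 * P.coeff k := by
    intro k
    conv_lhs => rw [hpS]
    rw [coeff_C_mul]
  have hdeg : (mulc M p).natDegree < S.card + 1 := by
    rw [Nat.lt_succ_iff]
    apply natDegree_le_iff_coeff_eq_zero.2
    intro k hk
    rw [coeff_mulc, hc, coeff_eq_zero_of_natDegree_lt (lt_of_le_of_lt (tm_deg S) hk)]
    ring
  rw [aeval_eq_sum_range' hdeg]
  intro h0
  apply h1
  have hp0 : ((p.coeff 0 : ℝ) : ℂ) ≠ 0 := by exact_mod_cast hp.1.ne'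
  have h3 : ∑ k ∈ Finset.range (S.card + 1), (mulc M p).coeff k • z ^ k =
      ((p.coeff 0 : ℝ) : ℂ) * ∑ k ∈ Finset.range (S.card + 1),
        ((P.coeff k : ℝ) : ℂ) * z ^ k * ((M k : ℝ) : ℂ) := by
    rw [Finset.mul_sum]
    apply Finset.sum_congr rfl
    intro k _
    rw [coeff_mulc, hc, Complex.real_smul]
    push_cast
    ring
  rw [h3] at h0
  exact (mul_eq_zero.1 h0).resolve_left hp0

theorem Neg_mulc {p : Polynomial ℝ} (hp : Neg p) {M : ℕ → ℝ} (hM : MM M) : Neg (mulc M p) := by
  have h0 : 0 < (mulc M p).coeff 0 := by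
    rw [coeff_mulc]
    exact mul_pos (hM.1 0) hp.1
  refine ⟨h0, fun z hz => ?_⟩
  have him : z.im = 0 := by
    rcases lt_trichotomy z.im 0 with h | h | h
    · exfalso
      have h1 : 0 < (starRingEnd ℂ z).im := by
        rw [Complex.conj_im]
        linarith
      apply tm_upper hp hM h1
      rw [aeval_conj, hz, map_zero]
    · exact h
    · exact absurd hz (tm_upper hp hM h)
  refine ⟨him, ?_⟩
  by_contra hre
  push Not at hre
  have hz1 : z = ((z.re : ℝ) : ℂ) := Complex.ext (by simp) (by simp [him])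
  rw [aeval_eq_sum_range, hz1] at hz
  have h2 : ((∑ k ∈ Finset.range ((mulc M p).natDegree + 1),
      (mulc M p).coeff k * z.re ^ k : ℝ) : ℂ) = 0 := by
    rw [← hz]
    push_cast
    apply Finset.sum_congr rfl
    intro k _
    rw [Complex.real_smul]
  have h3 : ∑ k ∈ Finset.range ((mulc M p).natDegree + 1),
      (mulc M p).coeff k * z.re ^ k = 0 := by exact_mod_cast h2
  rw [Finset.sum_range_succ'] at h3
  have h4 : 0 ≤ ∑ k ∈ Finset.range (mulc M p).natDegree,
      (mulc M p).coeff (k + 1) * z.re ^ (k + 1) := by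
    apply Finset.sum_nonneg
    intro k _
    rw [coeff_mulc]
    exact mul_nonneg (mul_nonneg (hM.1 _).le (hp.coeff_nonneg _)) (pow_nonneg hre _)
  rw [pow_zero, mul_one] at h3
  linarith

theorem T_mul {φ M : ℕ → ℝ} (h : T φ) (hM : MM M) : T (fun k => M k * φ k) := by
  obtain ⟨p, hp, hc⟩ := h
  refine ⟨fun n => mulc M (p n), fun n => Neg_mulc (hp n) hM, fun k => ?_⟩
  simp only [coeff_mulc]
  exact (hc k).const_mul (M k)

end Pool.Agent.Lib.MP_8382de_an.W2
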