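import Pool.Agent.Lib.MP_8382de_an.W2.Son
import Pool.Agent.Lib.MP_8382de_an.ALG.LagG
import Pool.Agent.Lib.MP_8382de_an.ALG.Fin

/-!
# W2.Zer: the zeros of `Lg` and `Gg`

`Lg_real`, `Gg_real`: all complex zeros are real and positive. `(1 + X)^n` is `Neg` (only zero
`-1`), so the sequence `k ↦ C(n,k)` is in `T` (constant sequence of polynomials,
`coeff_one_add_X_pow`), `T_gamma` (`e = 1`, `β = s`) gives `T (k ↦ C(n,k)/Γ(k+s))` and `T_lin`
(`e = 1`, `β = w`) `T (k ↦ (k+w) C(n,k)/Γ(k+s))`. `T.zeros`: the series `∑ φ_k z^k` vanishes only for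
real negative `z`. `aeval z (Lg n s) = ∑' φ_k (-z)^k` (finite sum, `tsum_eq_sum`).

`Gg_sign`: let `g(ζ) = 0`, `ζ > 0`. `Gg_ode` gives `ζ g'(ζ) = -(Rζ+E) p(ζ)`, and `p(ζ) ≠ 0`
(`sonin_ne`), so `g'(ζ) p(ζ) < 0`.
-/

set_option autoImplicit false

namespace Pool.Agent.Lib.MP_8382de_an.W2

open Polynomial ALG

lemma Zer_T (n : ℕ) : T (fun k => (n.choose k : ℝ)) := by
  refine ⟨fun _ => (1 + X) ^ n, fun _ => ⟨?_, fun z hz => ?_⟩, fun k => ?_⟩
  · rw [coeff_one_add_X_pow]; simp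
  · rw [map_pow, map_add, map_one, aeval_X] at hz
    have h1 : (1 : ℂ) + z = 0 := eq_zero_of_pow_eq_zero hz
    have h2 : z = -1 := by linear_combination h1
    subst h2
    simp
  · simp only [coeff_one_add_X_pow]
    exact tendsto_const_nhds

lemma Zer_T1 (n : ℕ) {s : ℝ} (hs : 0 < s) :
    T (fun k => (n.choose k : ℝ) / Real.Gamma ((k : ℝ) + s)) :=
  T_congr (T_gamma (Zer_T n) (e := 1) zero_le_one hs) fun k => by rw [one_mul]

lemma Zer_T2 (n : ℕ) {s w : ℝ} (hs : 0 < s) (hw : 0 < w) :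
    T (fun k => ((k : ℝ) + w) * ((n.choose k : ℝ) / Real.Gamma ((k : ℝ) + s))) :=
  T_congr (T_lin (Zer_T1 n hs) (e := 1) zero_le_one hw) fun k => by rw [one_mul]

lemma Zer_aeval (P : Polynomial ℝ) (φ : ℕ → ℝ) (h : ∀ k, P.coeff k = (-1) ^ k * φ k) (z : ℂ) :
    aeval z P = ∑' k : ℕ, (φ k : ℂ) * (-z) ^ k := by
  have hφ : ∀ k, φ k = (-1) ^ k * P.coeff k := by
    intro k
    rw [h, ← mul_assoc, ← mul_pow]
    simp
  rw [Polynomial.aeval_eq_sum_range, tsum_eq_sum (s := Finset.range (P.natDegree + 1))]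
  · refine Finset.sum_congr rfl fun k _ => ?_
    rw [Complex.real_smul, hφ k, neg_pow z k]
    push_cast
    have : ((-1 : ℂ) ^ k) * ((-1 : ℂ) ^ k) = 1 := by rw [← mul_pow]; simp
    linear_combination (-(P.coeff k : ℂ) * z ^ k) * this
  · intro k hk
    have : P.coeff k = 0 := coeff_eq_zero_of_natDegree_lt (by
      simp only [Finset.mem_range] at hk; omega)
    rw [hφ k, this]
    simp

lemma Zer_neg {z : ℂ} (h : (-z).im = 0 ∧ (-z).re < 0) : z.im = 0 ∧ 0 < z.re := by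
  rw [Complex.neg_im, Complex.neg_re] at h
  exact ⟨by linarith [h.1], by linarith [h.2]⟩

theorem Lg_real {n : ℕ} {s : ℝ} (hs : 0 < s) (z : ℂ) (hz : aeval z (Lg n s) = 0) :
    z.im = 0 ∧ 0 < z.re := by
  have hG := Real.Gamma_pos_of_pos hs
  refine Zer_neg (T.zeros (Zer_T1 n hs) ?_ (-z) ?_)
  · simp only [Nat.choose_zero_right, Nat.cast_one, CharP.cast_eq_zero, zero_add]
    positivity
  · rw [← Zer_aeval (Lg n s) _ _ z]
    · exact hz
    · intro k
      rw [coeff_Lg]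
      ring

theorem Gg_real {n : ℕ} {s w : ℝ} (hs : 0 < s) (hw : 0 < w) (z : ℂ)
    (hz : aeval z (Gg n s w) = 0) : z.im = 0 ∧ 0 < z.re := by
  have hG := Real.Gamma_pos_of_pos hs
  refine Zer_neg (T.zeros (Zer_T2 n hs hw) ?_ (-z) ?_)
  · simp only [Nat.choose_zero_right, Nat.cast_one, CharP.cast_eq_zero, zero_add]
    positivity
  · rw [← Zer_aeval (Gg n s w) _ _ z]
    · exact hz
    · intro k
      rw [coeff_Gg, coeff_Lg]
      ring

theorem Gg_sign {n : ℕ} {s w : ℝ} (hs : 0 < s) (hw : 0 < w) (h1 : s ≤ 1 / 2 + 2 * w)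
    (h2 : s ≤ 1 + w) {ζ : ℝ} (hζ : 0 < ζ) (hg : (Gg n s w).eval ζ = 0) :
    (derivative (Gg n s w)).eval ζ * (Lg n s).eval ζ < 0 := by
  have hp := sonin_ne hs hw h1 h2 hζ hg
  have hD := Son_D (n := n) hw h2 hζ
  have h := Son_g n hs w ζ
  rw [hg, mul_zero, zero_sub] at h
  have h3 : 0 < (Lg n s).eval ζ ^ 2 := by positivity
  have h4 : ζ * ((derivative (Gg n s w)).eval ζ * (Lg n s).eval ζ) < 0 := by
    have : ζ * ((derivative (Gg n s w)).eval ζ * (Lg n s).eval ζ) =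
        -((((n : ℝ) + w) * ζ + w * (1 + w - s)) * (Lg n s).eval ζ ^ 2) := by
      linear_combination (Lg n s).eval ζ * h
    rw [this]
    have := mul_pos hD h3
    linarith
  by_contra h5
  push Not at h5
  exact absurd h4 (not_lt.mpr (mul_nonneg hζ.le h5))

end Pool.Agent.Lib.MP_8382de_an.W2
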